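import Mathlib
import Pool.Agent.Helper884.IC.Compl

/-!
# Irreducible characters and normal subgroups
-/

open scoped BigOperators Classical
open Representation Pool.Agent.Helper884.IC

noncomputable section

set_option linter.unusedSectionVars false
set_option linter.unusedVariables false
set_option linter.style.haveILetI false

namespace Pool.Agent.V1149.AZ

variable {G : Type} [Group G] [Fintype G]

/-- invariance of a function under right translation by `M` -/
def Inv (M : Subgroup G) (χ : G → ℂ) : Prop := ∀ g, ∀ m ∈ M, χ (g * m) = χ g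

lemma char_one_ne {V : Type} [AddCommGroup V] [Module ℂ V] [FiniteDimensional ℂ V]
    (ρ : Representation ℂ G V) (hρ : ρ.IsIrreducible) : ρ.character 1 ≠ 0 := by
  haveI : Nontrivial V := by
    by_contra hn
    rw [not_nontrivial_iff_subsingleton] at hn
    have : Subsingleton (Subrepresentation ρ) := by
      constructor
      intro a b
      ext x
      have : x = 0 := Subsingleton.elim _ _
      subst this
      simp
    have h5 := hρ.toNontrivial
    exact not_subsingleton (Subrepresentation ρ) this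
  rw [ρ.char_one]
  exact_mod_cast (Module.finrank_pos (R := ℂ) (M := V)).ne'

lemma irr_one_ne {χ : G → ℂ} (h : IsIrrChar χ) : χ 1 ≠ 0 := by
  obtain ⟨V, _, _, _, ρ, hρ, rfl⟩ := h
  exact char_one_ne ρ hρ

lemma schur {V : Type} [AddCommGroup V] [Module ℂ V] [FiniteDimensional ℂ V]
    (ρ : Representation ℂ G V) (hirr : ρ.IsIrreducible) (T : V →ₗ[ℂ] V)
    (hcomm : ∀ (h : G) (v : V), T (ρ h v) = ρ h (T v)) : ∃ c : ℂ, T = c • LinearMap.id := by
  let T' : IntertwiningMap ρ ρ := T.intertwiningMap_of_isIntertwiningMap ρ ρ hcomm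
  obtain ⟨c, hc⟩ := (Representation.IsIrreducible.algebraMap_intertwiningMap_bijective_of_isAlgClosed
    (ρ := ρ)).2 T'
  refine ⟨c, ?_⟩
  ext v
  have h1 := congrArg (fun S : IntertwiningMap ρ ρ => S v) hc
  exact h1.symm

/-- the dichotomy for a normal subgroup -/
lemma rep_dich {V : Type} [AddCommGroup V] [Module ℂ V] [FiniteDimensional ℂ V]
    (ρ : Representation ℂ G V) (hirr : ρ.IsIrreducible) (M : Subgroup G) [hM : M.Normal] :
    (∀ m ∈ M, ρ m = LinearMap.id) ∨ ∑ m : M, ρ (m : G) = 0 := by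
  let S : Subrepresentation ρ :=
    { toSubmodule :=
        { carrier := {v | ∀ m ∈ M, ρ m v = v}
          add_mem' := by
            intro a b ha hb m hm
            rw [map_add, ha m hm, hb m hm]
          zero_mem' := by
            intro m hm
            rw [map_zero]
          smul_mem' := by
            intro c x hx m hm
            rw [map_smul, hx m hm] }
      apply_mem_toSubmodule := by
        intro g v hv m hm
        have h1 : ρ m (ρ g v) = ρ g (ρ (g⁻¹ * m * g) v) := by
          rw [← Module.End.mul_apply, ← Module.End.mul_apply, ← map_mul, ← map_mul]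
          congr 2
          group
        rw [h1, hv (g⁻¹ * m * g) (by simpa using hM.conj_mem m hm g⁻¹)] }
  rcases hirr.eq_bot_or_eq_top S with h | h
  · right
    ext v
    have hmem : (∑ m : M, ρ (m : G)) v ∈ S.toSubmodule := by
      intro m hm
      rw [LinearMap.sum_apply, map_sum]
      refine Fintype.sum_equiv (Equiv.mulLeft (⟨m, hm⟩ : M)) _ _ fun x => ?_
      rw [← Module.End.mul_apply, ← map_mul]
      rfl
    have hbot : (⊥ : Subrepresentation ρ).toSubmodule = ⊥ := rfl
    rw [h, hbot, Submodule.mem_bot] at hmem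
    rw [hmem]
    rfl
  · left
    intro m hm
    ext v
    have : v ∈ S.toSubmodule := by
      rw [h]
      trivial
    exact this m hm

lemma char_dich {χ : G → ℂ} (hχ : IsIrrChar χ) (M : Subgroup G) [hM : M.Normal] :
    Inv M χ ∨ ∀ g, ∑ m : M, χ (g * m) = 0 := by
  obtain ⟨V, _, _, _, ρ, hρ, rfl⟩ := hχ
  rcases rep_dich ρ hρ M with h | h
  · left
    intro g m hm
    unfold Representation.character
    simp only [map_mul, h m hm]
    rfl
  · right
    intro g
    have h1 : ∑ m : M, ρ.character (g * m) = LinearMap.trace ℂ V (ρ g * ∑ m : M, ρ (m : G)) := by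
      rw [Finset.mul_sum, map_sum]
      refine Finset.sum_congr rfl fun m _ => ?_
      unfold Representation.character
      rw [map_mul]
    rw [h1, h, mul_zero, map_zero]

/-- an invariant irreducible character comes from a representation trivial on `M` -/
lemma inv_rep {V : Type} [AddCommGroup V] [Module ℂ V] [FiniteDimensional ℂ V]
    (ρ : Representation ℂ G V) (hρ : ρ.IsIrreducible) (M : Subgroup G) [hM : M.Normal]
    (h : Inv M ρ.character) : ∀ m ∈ M, ρ m = LinearMap.id := by
  rcases rep_dich ρ hρ M with h1 | h1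
  · exact h1
  · exfalso
    have h2 : ∑ m : M, ρ.character (1 * (m : G)) = 0 := by
      have h3 : ∑ m : M, ρ.character (1 * m) = LinearMap.trace ℂ V (∑ m : M, ρ (m : G)) := by
        rw [map_sum]
        refine Finset.sum_congr rfl fun m _ => ?_
        rw [one_mul]
        rfl
      rw [h3, h1, map_zero]
    have h3 : ∑ m : M, ρ.character (1 * (m : G)) = ∑ m : M, ρ.character 1 :=
      Finset.sum_congr rfl fun m _ => h 1 m m.2
    rw [h3, Finset.sum_const, Finset.card_univ, nsmul_eq_mul] at h2
    rcases mul_eq_zero.mp h2 with h4 | h4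
    · have : (Fintype.card M : ℂ) ≠ 0 := by exact_mod_cast Fintype.card_ne_zero
      exact this h4
    · exact char_one_ne ρ hρ h4

lemma schur_central {χ : G → ℂ} (hχ : IsIrrChar χ) (M : Subgroup G) [hM : M.Normal]
    (hinv : Inv M χ) {y : G} (hy : ∀ x, y * x * y⁻¹ * x⁻¹ ∈ M) :
    ∃ ω : ℂ, ∀ g, χ (g * y) = ω * χ g := by
  obtain ⟨V, _, _, _, ρ, hρ, rfl⟩ := hχ
  have h1 := inv_rep ρ hρ M hinv
  obtain ⟨c, hc⟩ := schur ρ hρ (ρ y) (by
    intro x v
    have h2 : y * x = (y * x * y⁻¹ * x⁻¹) * (x * y) := by group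
    rw [← Module.End.mul_apply, ← map_mul, h2, map_mul, h1 _ (hy x), map_mul]
    rfl)
  refine ⟨c, fun g => ?_⟩
  unfold Representation.character
  rw [map_mul, hc]
  have : ρ g * (c • LinearMap.id) = c • ρ g := by
    ext v
    simp
  rw [this, map_smul, smul_eq_mul]

lemma class_comm {χ : G → ℂ} (h : IsClass χ) (a b : G) : χ (a * b) = χ (b * a) := by
  have := h (a * b) b
  rw [← this]
  congr 1
  group

/-- coefficients of invariant class functions vanish on non-invariant characters -/
lemma B_zero {f χ : G → ℂ} (hf : IsClass f) (M : Subgroup G) [hM : M.Normal] (hfM : Inv M f)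
    (hχ : IsIrrChar χ) (hχM : ¬ Inv M χ) : B f χ = 0 := by
  have h1 : ∀ g, ∑ m : M, χ (g * m) = 0 := (char_dich hχ M).resolve_left hχM
  have h2 : ∀ m : M, ∑ g : G, f g * χ g⁻¹ = ∑ g : G, f g * χ (g⁻¹ * (m : G)) := by
    intro m
    refine (Fintype.sum_equiv (Equiv.mulRight ((m : G)⁻¹)) _ _ fun g => ?_).symm
    change f g * χ (g⁻¹ * m) = f (g * (m : G)⁻¹) * χ (g * (m : G)⁻¹)⁻¹
    rw [hfM g _ (M.inv_mem m.2), mul_inv_rev, inv_inv, class_comm hχ.isClass]
  have h3 : (Fintype.card M : ℂ) * ∑ g : G, f g * χ g⁻¹ = 0 := by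
    calc (Fintype.card M : ℂ) * ∑ g : G, f g * χ g⁻¹
        = ∑ m : M, ∑ g : G, f g * χ g⁻¹ := by
          rw [Finset.sum_const, Finset.card_univ, nsmul_eq_mul]
      _ = ∑ m : M, ∑ g : G, f g * χ (g⁻¹ * (m : G)) := Finset.sum_congr rfl fun m _ => h2 m
      _ = ∑ g : G, f g * ∑ m : M, χ (g⁻¹ * (m : G)) := by
          rw [Finset.sum_comm]
          refine Finset.sum_congr rfl fun g _ => ?_
          rw [Finset.mul_sum]
      _ = 0 := by
          refine Finset.sum_eq_zero fun g _ => ?_
          rw [h1, mul_zero]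
  have h4 : (Fintype.card M : ℂ) ≠ 0 := by exact_mod_cast Fintype.card_ne_zero
  unfold B
  rw [(mul_eq_zero.mp h3).resolve_left h4, mul_zero]

/-- the irreducible characters trivial on `M` -/
def IrrM (M : Subgroup G) : Finset (G → ℂ) := (Irr G).filter (Inv M)

lemma mem_IrrM {M : Subgroup G} {χ : G → ℂ} : χ ∈ IrrM M ↔ IsIrrChar χ ∧ Inv M χ := by
  rw [IrrM, Finset.mem_filter, mem_Irr]

/-- class functions on the quotient, as functions on `G` -/
def infl (M : Subgroup G) [M.Normal] : (ConjClasses (G ⧸ M) → ℂ) →ₗ[ℂ] (G → ℂ) where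
  toFun φ g := φ (ConjClasses.mk (g : G ⧸ M))
  map_add' _ _ := rfl
  map_smul' _ _ := rfl

lemma infl_injective (M : Subgroup G) [M.Normal] : Function.Injective (infl M) := by
  intro φ ψ h
  funext C
  obtain ⟨x, rfl⟩ := ConjClasses.mk_surjective C
  obtain ⟨g, rfl⟩ := QuotientGroup.mk_surjective x
  exact congrFun h g

lemma infl_class (M : Subgroup G) [M.Normal] (φ : ConjClasses (G ⧸ M) → ℂ) :
    IsClass (infl M φ) := by
  intro g y
  change φ (ConjClasses.mk _) = φ (ConjClasses.mk _)
  congr 1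
  rw [ConjClasses.mk_eq_mk_iff_isConj, isConj_comm, isConj_iff]
  exact ⟨(y : G ⧸ M), rfl⟩

lemma infl_inv (M : Subgroup G) [M.Normal] (φ : ConjClasses (G ⧸ M) → ℂ) :
    Inv M (infl M φ) := by
  intro g m hm
  change φ (ConjClasses.mk _) = φ (ConjClasses.mk _)
  congr 2
  rw [QuotientGroup.mk_mul, (QuotientGroup.eq_one_iff m).mpr hm, mul_one]

lemma mem_range_infl {M : Subgroup G} [hM : M.Normal] {f : G → ℂ} (hf : IsClass f)
    (hfM : Inv M f) : f ∈ LinearMap.range (infl M) := by
  have hq : ∀ g h : G, ConjClasses.mk (g : G ⧸ M) = ConjClasses.mk (h : G ⧸ M) → f g = f h := by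
    intro g h hgh
    rw [ConjClasses.mk_eq_mk_iff_isConj, isConj_iff] at hgh
    obtain ⟨c, hc⟩ := hgh
    obtain ⟨x, rfl⟩ := QuotientGroup.mk_surjective c
    have h1 : ((x * g * x⁻¹ : G) : G ⧸ M) = (h : G ⧸ M) := hc
    rw [QuotientGroup.eq] at h1
    have h2 := hfM (x * g * x⁻¹) _ h1
    rw [mul_inv_cancel_left] at h2
    rw [h2, hf g x]
  have hsurj : ∀ C : ConjClasses (G ⧸ M), ∃ g : G, ConjClasses.mk (g : G ⧸ M) = C := by
    intro C
    obtain ⟨x, rfl⟩ := ConjClasses.mk_surjective C
    obtain ⟨g, rfl⟩ := QuotientGroup.mk_surjective x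
    exact ⟨g, rfl⟩
  choose rep hrep using hsurj
  refine ⟨fun C => f (rep C), ?_⟩
  funext g
  exact hq _ _ (hrep _)

lemma irrM_linInd (M : Subgroup G) :
    LinearIndependent ℂ (fun x : IrrM M => (x : G → ℂ)) := by
  rw [linearIndependent_iff']
  intro s c hc i hi
  have hirr : ∀ j : IrrM M, IsIrrChar (j : G → ℂ) := fun j => (mem_IrrM.mp j.2).1
  have h1 : B (∑ j ∈ s, c j • (j : G → ℂ)) i.1 = B 0 i.1 := congrArg (fun F => B F i.1) hc
  have h2 : B (∑ j ∈ s, c j • (j : G → ℂ)) i.1 = ∑ j ∈ s, c j * B (j : G → ℂ) i.1 := by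
    clear hc h1 hi
    induction s using Finset.induction_on with
    | empty => simp [B]
    | insert a s ha ih => rw [Finset.sum_insert ha, B_add_left, ih, Finset.sum_insert ha,
        B_smul_left]
  rw [h2, Finset.sum_eq_single i] at h1
  · rw [B_irr (hirr i) (hirr i), if_pos rfl, mul_one] at h1
    rw [h1]
    simp [B]
  · intro j _ hj
    rw [B_irr (hirr j) (hirr i), if_neg (fun h => hj (Subtype.ext h)), mul_zero]
  · intro h
    exact absurd hi h

lemma span_irrM (M : Subgroup G) [hM : M.Normal] :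
    Submodule.span ℂ (Set.range fun x : IrrM M => (x : G → ℂ)) = LinearMap.range (infl M) := by
  apply le_antisymm
  · rw [Submodule.span_le]
    rintro _ ⟨x, rfl⟩
    have h := mem_IrrM.mp x.2
    exact mem_range_infl h.1.isClass h.2
  · rintro f ⟨φ, rfl⟩
    have h1 := expand _ (infl_class M φ)
    rw [h1]
    refine Submodule.sum_mem _ fun χ hχ => ?_
    by_cases h : Inv M χ
    · exact Submodule.smul_mem _ _ (Submodule.subset_span
        ⟨⟨χ, mem_IrrM.mpr ⟨mem_Irr.mp hχ, h⟩⟩, rfl⟩)
    · rw [B_zero (infl_class M φ) M (infl_inv M φ) (mem_Irr.mp hχ) h, zero_smul]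
      exact Submodule.zero_mem _

/-- **the number of irreducible characters trivial on `M` is the number of classes of `G / M`** -/
theorem card_irrM (M : Subgroup G) [hM : M.Normal] :
    (IrrM M).card = Nat.card (ConjClasses (G ⧸ M)) := by
  have h1 : Module.finrank ℂ (Submodule.span ℂ (Set.range fun x : IrrM M => (x : G → ℂ))) =
      Fintype.card (IrrM M) := finrank_span_eq_card (irrM_linInd M)
  rw [span_irrM, LinearMap.finrank_range_of_inj (infl_injective M)] at h1
  rw [Module.finrank_fintype_fun_eq_card] at h1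
  rw [Nat.card_eq_fintype_card, h1, Fintype.card_coe]

end Pool.Agent.V1149.AZ
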