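import Mathlib
import Pool.Agent.V1149.AZ.Char

/-!
# Class sizes and zeros of characters of finite `p`-groups
-/

open scoped BigOperators Classical
open Pool.Agent.Helper884.IC

noncomputable section

set_option linter.unusedSectionVars false
set_option linter.unusedVariables false
set_option linter.style.haveILetI false

namespace Pool.Agent.V1149.AZ

variable {G : Type} [Group G] [Fintype G]

/-- the size of the class of `g` -/
def cs (g : G) : ℕ := (Subgroup.centralizer ({g} : Set G)).index

lemma cs_pos (g : G) : 0 < cs g := Nat.pos_of_ne_zero Subgroup.index_ne_zero_of_finite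

lemma index_anti {H K : Subgroup G} (h : H ≤ K) : K.index ≤ H.index :=
  Nat.le_of_dvd (Nat.pos_of_ne_zero Subgroup.index_ne_zero_of_finite)
    (Subgroup.index_dvd_of_le h)

lemma card_conj (x : G) : Nat.card {y : G // IsConj x y} = cs x := by
  have h0 : Nat.card {y : G // IsConj x y} * Nat.card (Subgroup.centralizer ({x} : Set G)) =
      Nat.card G := by
    rw [Subgroup.nat_card_centralizer_nat_card_stabilizer]
    have h1 := MulAction.card_orbit_mul_card_stabilizer_eq_card_group (ConjAct G) x
    have h2 : Nat.card {y : G // IsConj x y} = Nat.card (MulAction.orbit (ConjAct G) x) := by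
      refine Nat.card_congr (Equiv.subtypeEquivRight fun y => ?_)
      rw [ConjAct.mem_orbit_conjAct, isConj_comm]
    rw [h2, Nat.card_eq_fintype_card, Nat.card_eq_fintype_card, h1, Nat.card_eq_fintype_card]
    rfl
  have h3 := Subgroup.index_mul_card (Subgroup.centralizer ({x} : Set G))
  have h4 : 0 < Nat.card (Subgroup.centralizer ({x} : Set G)) := Nat.card_pos
  exact Nat.eq_of_mul_eq_mul_right h4 (h0.trans h3.symm)

lemma cs_conj {x y : G} (h : IsConj x y) : cs x = cs y := by
  rw [← card_conj, ← card_conj]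
  refine Nat.card_congr (Equiv.subtypeEquivRight fun z => ?_)
  exact ⟨fun h1 => h.symm.trans h1, fun h1 => h.trans h1⟩

lemma cs_mul (x y : G) : cs (x * y) ≤ cs x * cs y := by
  refine (index_anti ?_).trans (Subgroup.index_inf_le (H := Subgroup.centralizer ({x} : Set G))
    (K := Subgroup.centralizer ({y} : Set G)))
  intro g hg
  rw [Subgroup.mem_inf, Subgroup.mem_centralizer_singleton_iff,
    Subgroup.mem_centralizer_singleton_iff] at hg
  rw [Subgroup.mem_centralizer_singleton_iff]
  rw [← mul_assoc, hg.1, mul_assoc, hg.2, mul_assoc]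

lemma cs_inv (x : G) : cs x⁻¹ = cs x := by
  unfold cs
  congr 1
  ext g
  rw [Subgroup.mem_centralizer_singleton_iff, Subgroup.mem_centralizer_singleton_iff]
  constructor
  · intro h
    have := congrArg (fun z => x * z * x) h
    simpa [mul_assoc] using this.symm
  · intro h
    have := congrArg (fun z => x⁻¹ * z * x⁻¹) h
    simpa [mul_assoc] using this.symm

/-- elements of a subgroup generated by a set of elements with small classes -/
lemma cs_closure (S : Finset G) (t : ℕ) (ht : 1 ≤ t) (hS : ∀ y ∈ S, cs y ≤ t) :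
    ∀ g ∈ Subgroup.closure (S : Set G), cs g ≤ t ^ S.card := by
  intro g hg
  have h1 : (⨅ y : S, Subgroup.centralizer ({(y : G)} : Set G)) ≤
      Subgroup.centralizer ({g} : Set G) := by
    intro x hx
    rw [Subgroup.mem_iInf] at hx
    have h2 : Subgroup.closure (S : Set G) ≤ Subgroup.centralizer ({x} : Set G) := by
      rw [Subgroup.closure_le]
      intro y hy
      have h3 := hx ⟨y, hy⟩
      rw [Subgroup.mem_centralizer_singleton_iff] at h3
      rw [SetLike.mem_coe, Subgroup.mem_centralizer_singleton_iff]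
      exact h3.symm
    have h3 := h2 hg
    rw [Subgroup.mem_centralizer_singleton_iff] at h3 ⊢
    exact h3.symm
  refine (index_anti h1).trans ((Subgroup.index_iInf_le _).trans ?_)
  calc ∏ y : S, (Subgroup.centralizer ({(y : G)} : Set G)).index ≤ ∏ y : S, t :=
        Finset.prod_le_prod' fun y _ => hS y y.2
    _ = t ^ S.card := by
        rw [Finset.prod_const, Finset.card_univ, Fintype.card_coe]

/-! ### Counting classes of quotients -/

/-- the number of classes of `G / M` -/
def kap (M : Subgroup G) [M.Normal] : ℕ := Nat.card (ConjClasses (G ⧸ M))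

lemma kap_pos (M : Subgroup G) [M.Normal] : 0 < kap M := Nat.card_pos

/-- `M'` is central modulo `M` -/
def CentralMod (M M' : Subgroup G) : Prop := ∀ m ∈ M', ∀ x, m * x * m⁻¹ * x⁻¹ ∈ M

lemma kap_step {M M' : Subgroup G} [hM : M.Normal] [hM' : M'.Normal] (hle : M ≤ M')
    (hc : CentralMod M M') : kap M' + M.relIndex M' ≤ kap M + 1 := by
  classical
  -- the induced map on classes
  let π : ConjClasses (G ⧸ M) → ConjClasses (G ⧸ M') :=
    ConjClasses.map (QuotientGroup.map M M' (MonoidHom.id G) (by simpa using hle))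
  have hπ : ∀ g : G, π (ConjClasses.mk (g : G ⧸ M)) = ConjClasses.mk (g : G ⧸ M') := fun g => rfl
  have hsurj : ∀ b : ConjClasses (G ⧸ M'), ∃ a, π a = b := by
    intro b
    obtain ⟨x, rfl⟩ := ConjClasses.mk_surjective b
    obtain ⟨g, rfl⟩ := QuotientGroup.mk_surjective x
    exact ⟨_, hπ g⟩
  choose sec hsec using hsurj
  let F : {b : ConjClasses (G ⧸ M') // b ≠ ConjClasses.mk 1} ⊕ (M' ⧸ M.subgroupOf M') →
      ConjClasses (G ⧸ M) := Sum.elim (fun b => sec b.1)
        (fun z => ConjClasses.mk (((Quotient.out z : M') : G) : G ⧸ M))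
  have hF : Function.Injective F := by
    intro u v huv
    have hone : ∀ z : M' ⧸ M.subgroupOf M', π (ConjClasses.mk (((Quotient.out z : M') : G) : G ⧸ M)) =
        ConjClasses.mk 1 := by
      intro z
      rw [hπ]
      congr 1
      exact (QuotientGroup.eq_one_iff _).mpr (Quotient.out z).2
    rcases u with u | u <;> rcases v with v | v
    · have h1 := congrArg π huv
      change π (sec u.1) = π (sec v.1) at h1
      rw [hsec, hsec] at h1
      rw [Subtype.ext h1]
    · exfalso
      have h1 := congrArg π huv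
      change π (sec u.1) = π _ at h1
      rw [hsec] at h1
      exact u.2 (h1.trans (hone v))
    · exfalso
      have h1 := congrArg π huv
      change π _ = π (sec v.1) at h1
      rw [hsec] at h1
      exact v.2 (h1.symm.trans (hone u))
    · have h1 : ConjClasses.mk (((Quotient.out u : M') : G) : G ⧸ M) =
        ConjClasses.mk (((Quotient.out v : M') : G) : G ⧸ M) := huv
      rw [ConjClasses.mk_eq_mk_iff_isConj, isConj_iff] at h1
      obtain ⟨c, hc'⟩ := h1
      obtain ⟨x, rfl⟩ := QuotientGroup.mk_surjective c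
      set a : G := ((Quotient.out u : M') : G) with ha
      set b : G := ((Quotient.out v : M') : G) with hb
      have h2 : ((x * a * x⁻¹ : G) : G ⧸ M) = (b : G ⧸ M) := hc'
      have h3 : ((x * a * x⁻¹ : G) : G ⧸ M) = (a : G ⧸ M) := by
        rw [eq_comm, QuotientGroup.eq]
        have h4 := hc _ (M'.inv_mem (Quotient.out u : M').2) x
        rw [← ha, inv_inv] at h4
        have h5 : a⁻¹ * (x * a * x⁻¹) = a⁻¹ * x * a * x⁻¹ := by group
        rw [h5]
        exact h4
      have h4 : (a : G ⧸ M) = (b : G ⧸ M) := h3.symm.trans h2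
      rw [QuotientGroup.eq] at h4
      have h5 : u = v := by
        rw [← Quotient.out_eq u, ← Quotient.out_eq v]
        apply Quotient.sound
        change (QuotientGroup.leftRel (M.subgroupOf M')) _ _
        rw [QuotientGroup.leftRel_apply]
        exact h4
      rw [h5]
  have h1 := Nat.card_le_card_of_injective F hF
  rw [Nat.card_sum] at h1
  have h2 : Nat.card {b : ConjClasses (G ⧸ M') // b ≠ ConjClasses.mk 1} + 1 = kap M' := by
    rw [kap, Nat.card_eq_fintype_card, Nat.card_eq_fintype_card,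
      Fintype.card_subtype_compl, Fintype.card_subtype_eq]
    have : 0 < Fintype.card (ConjClasses (G ⧸ M')) := Fintype.card_pos
    omega
  have h3 : Nat.card (M' ⧸ M.subgroupOf M') = M.relIndex M' := rfl
  unfold kap at h2 ⊢
  omega

lemma kap_mono {M M' : Subgroup G} [hM : M.Normal] [hM' : M'.Normal] (hle : M ≤ M') :
    kap M' ≤ kap M := by
  let π : ConjClasses (G ⧸ M) → ConjClasses (G ⧸ M') :=
    ConjClasses.map (QuotientGroup.map M M' (MonoidHom.id G) (by simpa using hle))
  refine Nat.card_le_card_of_surjective π ?_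
  intro b
  obtain ⟨x, rfl⟩ := ConjClasses.mk_surjective b
  obtain ⟨g, rfl⟩ := QuotientGroup.mk_surjective x
  exact ⟨ConjClasses.mk (g : G ⧸ M), rfl⟩

lemma kap_bot : kap (⊥ : Subgroup G) = Nat.card (ConjClasses G) := by
  unfold kap
  refine Nat.card_congr ?_
  exact
    { toFun := ConjClasses.map (QuotientGroup.quotientBot (G := G)).toMonoidHom
      invFun := ConjClasses.map (QuotientGroup.quotientBot (G := G)).symm.toMonoidHom
      left_inv := by
        intro C
        obtain ⟨x, rfl⟩ := ConjClasses.mk_surjective C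
        obtain ⟨g, rfl⟩ := QuotientGroup.mk_surjective x
        rfl
      right_inv := by
        intro C
        obtain ⟨x, rfl⟩ := ConjClasses.mk_surjective C
        rfl }

lemma irrM_mono {M M' : Subgroup G} (hle : M ≤ M') : IrrM M' ⊆ IrrM M := by
  intro χ hχ
  rw [mem_IrrM] at hχ ⊢
  exact ⟨hχ.1, fun g m hm => hχ.2 g m (hle hm)⟩

/-! ### The class size bound -/

/-- centralizer modulo `M` -/
def CM (M : Subgroup G) [M.Normal] (g : G) : Subgroup G :=
  (Subgroup.centralizer ({(g : G ⧸ M)} : Set (G ⧸ M))).comap (QuotientGroup.mk' M)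

lemma mem_CM {M : Subgroup G} [hM : M.Normal] {g x : G} :
    x ∈ CM M g ↔ x * g * x⁻¹ * g⁻¹ ∈ M := by
  rw [CM, Subgroup.mem_comap, Subgroup.mem_centralizer_singleton_iff,
    ← QuotientGroup.eq_one_iff (N := M)]
  change (x : G ⧸ M) * (g : G ⧸ M) = (g : G ⧸ M) * (x : G ⧸ M) ↔
    (x : G ⧸ M) * (g : G ⧸ M) * (x : G ⧸ M)⁻¹ * (g : G ⧸ M)⁻¹ = 1
  rw [mul_inv_eq_one, mul_inv_eq_iff_eq_mul]

lemma CM_mono {M M' : Subgroup G} [hM : M.Normal] [hM' : M'.Normal] (hle : M ≤ M') (g : G) :
    CM M g ≤ CM M' g := by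
  intro x hx
  rw [mem_CM] at hx ⊢
  exact hle hx

lemma CM_bot (g : G) : CM (⊥ : Subgroup G) g = Subgroup.centralizer ({g} : Set G) := by
  ext x
  rw [mem_CM, Subgroup.mem_bot, Subgroup.mem_centralizer_singleton_iff, mul_inv_eq_one,
    mul_inv_eq_iff_eq_mul]

lemma relIndex_eq_card_map (M K : Subgroup G) [M.Normal] :
    M.relIndex K = Nat.card (K.map (QuotientGroup.mk' M)) := by
  let f : K →* G ⧸ M := (QuotientGroup.mk' M).comp K.subtype
  have hker : M.subgroupOf K = f.ker := by
    ext y
    rw [Subgroup.mem_subgroupOf, MonoidHom.mem_ker]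
    exact (QuotientGroup.eq_one_iff (N := M) (y : G)).symm
  have hrange : f.range = K.map (QuotientGroup.mk' M) := by
    ext y
    constructor
    · rintro ⟨w, rfl⟩
      exact ⟨w, w.2, rfl⟩
    · rintro ⟨w, hw, rfl⟩
      exact ⟨⟨w, hw⟩, rfl⟩
  rw [Subgroup.relIndex, hker, Subgroup.index_ker, hrange]

/-- in a `p`-group every proper normal subgroup has a central extension of index `p` -/
lemma exists_next {p : ℕ} [hp : Fact p.Prime] (hG : IsPGroup p G) {M : Subgroup G}
    [hM : M.Normal] (hne : M ≠ ⊤) : ∃ M' : Subgroup G, M'.Normal ∧ M ≤ M' ∧ M ≠ M' ∧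
      CentralMod M M' ∧ M.relIndex M' = p := by
  have hnt : Nontrivial (G ⧸ M) := QuotientGroup.nontrivial_iff.mpr hne
  have hQ : IsPGroup p (G ⧸ M) := hG.to_quotient M
  have hZ : Nontrivial (Subgroup.center (G ⧸ M)) := hQ.center_nontrivial
  have hZp : IsPGroup p (Subgroup.center (G ⧸ M)) := hQ.to_subgroup _
  have hdvd : p ∣ Nat.card (Subgroup.center (G ⧸ M)) := by
    obtain ⟨n, hn⟩ := (IsPGroup.iff_card).mp hZp
    have h1 : 1 < Nat.card (Subgroup.center (G ⧸ M)) := Finite.one_lt_card
    rw [hn] at h1 ⊢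
    rcases Nat.eq_zero_or_pos n with h | h
    · rw [h] at h1
      simp at h1
    · exact dvd_pow_self p h.ne'
  obtain ⟨z, hz⟩ := exists_prime_orderOf_dvd_card' p hdvd
  set Z : Subgroup (G ⧸ M) := Subgroup.zpowers (z : G ⧸ M) with hZdef
  have hZc : ∀ w ∈ Z, ∀ x : G ⧸ M, w * x = x * w := by
    intro w hw x
    have h1 : Z ≤ Subgroup.center (G ⧸ M) := by
      rw [hZdef, Subgroup.zpowers_le]
      exact z.2
    exact ((Subgroup.mem_center_iff.mp (h1 hw)) x).symm
  have hcard : Nat.card Z = p := by
    rw [hZdef, Nat.card_zpowers, Subgroup.orderOf_coe, hz]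
  refine ⟨Z.comap (QuotientGroup.mk' M), ?_, ?_, ?_, ?_, ?_⟩
  · refine ⟨fun m hm x => ?_⟩
    rw [Subgroup.mem_comap] at hm ⊢
    have h1 : (QuotientGroup.mk' M) (x * m * x⁻¹) = (QuotientGroup.mk' M) m := by
      rw [map_mul, map_mul, map_inv, ← hZc _ hm, mul_inv_cancel_right]
    rw [h1]
    exact hm
  · intro m hm
    rw [Subgroup.mem_comap]
    have : (QuotientGroup.mk' M) m = 1 := (QuotientGroup.eq_one_iff m).mpr hm
    rw [this]
    exact Z.one_mem
  · intro h
    obtain ⟨y, hy⟩ := QuotientGroup.mk_surjective (z : G ⧸ M)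
    have h1 : y ∈ Z.comap (QuotientGroup.mk' M) := by
      rw [Subgroup.mem_comap]
      change (y : G ⧸ M) ∈ Z
      rw [hy]
      exact Subgroup.mem_zpowers _
    rw [← h] at h1
    have h2 : (y : G ⧸ M) = 1 := (QuotientGroup.eq_one_iff y).mpr h1
    rw [hy] at h2
    have h3 : z = 1 := Subtype.ext h2
    rw [h3, orderOf_one] at hz
    exact hp.out.one_lt.ne hz
  · intro m hm x
    rw [Subgroup.mem_comap] at hm
    rw [← QuotientGroup.eq_one_iff (N := M)]
    change (QuotientGroup.mk' M) m * (x : G ⧸ M) * ((QuotientGroup.mk' M) m)⁻¹ *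
      (x : G ⧸ M)⁻¹ = 1
    rw [hZc _ hm]
    group
  · rw [relIndex_eq_card_map, Subgroup.map_comap_eq_self_of_surjective
      (QuotientGroup.mk'_surjective M), hcard]

lemma two_pow_ge {p : ℕ} (hp : 1 ≤ p) : p ≤ 2 ^ (p - 1) := by
  obtain ⟨q, rfl⟩ : ∃ q, p = q + 1 := ⟨p - 1, by omega⟩
  have : q < 2 ^ q := Nat.lt_two_pow_self
  simpa using this

/-- number of characters trivial on `M` vanishing at `g` -/
def zt (M : Subgroup G) (g : G) : ℕ := ((IrrM M).filter fun χ => χ g = 0).card

/-- **class sizes are bounded in terms of the number of vanishing characters** -/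
theorem CM_index_le {p : ℕ} [hp : Fact p.Prime] (hG : IsPGroup p G) (g : G) :
    ∀ n : ℕ, ∀ M : Subgroup G, ∀ _ : M.Normal, M.index ≤ n → (CM M g).index ≤ 2 ^ zt M g := by
  intro n
  induction n with
  | zero =>
    intro M hM h
    exact absurd (Nat.le_zero.mp h) Subgroup.index_ne_zero_of_finite
  | succ n ih =>
    intro M hM hn
    by_cases htop : M = ⊤
    · subst htop
      have : CM (⊤ : Subgroup G) g = ⊤ := by
        rw [eq_top_iff]
        intro x _
        rw [mem_CM]
        trivial
      rw [this, Subgroup.index_top]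
      exact Nat.one_le_two_pow
    obtain ⟨M', hM', hle, hne, hc, hrel⟩ := exists_next hG htop
    have hidx : M'.index ≤ n := by
      have h1 := Subgroup.relIndex_mul_index hle
      rw [hrel] at h1
      have h2 := hp.out.two_le
      have h3 : 0 < M'.index := Nat.pos_of_ne_zero Subgroup.index_ne_zero_of_finite
      nlinarith
    have ih' := ih M' hM' hidx
    by_cases hCC : CM M g = CM M' g
    · rw [hCC]
      refine ih'.trans (Nat.pow_le_pow_right (by norm_num) ?_)
      exact Finset.card_le_card (Finset.filter_subset_filter _ (irrM_mono hle))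
    -- fused case
    have hlt : ∃ x, x ∈ CM M' g ∧ x ∉ CM M g := by
      by_contra hcon
      push Not at hcon
      exact hCC (le_antisymm (CM_mono hle g) hcon)
    obtain ⟨x, hx', hx⟩ := hlt
    rw [mem_CM] at hx hx'
    set t := x * g * x⁻¹ * g⁻¹ with ht
    -- `M'` is generated by `M` and `t`
    have hgen : ∀ m ∈ M', ∃ j : ℤ, ∃ m₀ ∈ M, m = t ^ j * m₀ := by
      have hcardq : Nat.card (M' ⧸ M.subgroupOf M') = p := hrel
      haveI : (M.subgroupOf M').Normal := hM.subgroupOf M'
      intro m hm
      have hne1 : (((⟨t, hx'⟩ : M') : M' ⧸ M.subgroupOf M')) ≠ 1 := by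
        intro h
        rw [QuotientGroup.eq_one_iff] at h
        exact hx h
      have h2 := mem_zpowers_of_prime_card (p := p) hcardq hne1
        (g' := ((⟨m, hm⟩ : M') : M' ⧸ M.subgroupOf M'))
      obtain ⟨j, hj⟩ := Subgroup.mem_zpowers_iff.mp h2
      rw [← QuotientGroup.mk_zpow, QuotientGroup.eq] at hj
      refine ⟨j, t ^ (-j) * m, ?_, ?_⟩
      · have h3 : ((⟨t, hx'⟩ : M') ^ j)⁻¹ * (⟨m, hm⟩ : M') ∈ M.subgroupOf M' := hj
        have h4 : ((((⟨t, hx'⟩ : M') ^ j)⁻¹ * (⟨m, hm⟩ : M') : M') : G) ∈ M := h3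
        rw [zpow_neg]
        exact h4
      · rw [zpow_neg, mul_inv_cancel_left]
    -- characters not trivial on `M'` vanish at `g`
    have hvan : ∀ χ ∈ IrrM M, χ ∉ IrrM M' → χ g = 0 := by
      intro χ hχ hχ'
      rw [mem_IrrM] at hχ hχ'
      obtain ⟨ω, hω⟩ := schur_central hχ.1 M hχ.2 (y := t) (fun y => hc t hx' y)
      have h1 : χ g = ω * χ g := by
        have h2 := hχ.1.isClass g x
        have h3 : x * g * x⁻¹ = t * g := by rw [ht]; group
        rw [h3, class_comm hχ.1.isClass, hω] at h2
        exact h2.symm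
      by_contra hg0
      have hω1 : ω = 1 := by
        have h2 : (ω - 1) * χ g = 0 := by rw [sub_mul, one_mul, ← h1, sub_self]
        rcases mul_eq_zero.mp h2 with h | h
        · exact sub_eq_zero.mp h
        · exact absurd h hg0
      apply hχ'
      refine ⟨hχ.1, ?_⟩
      have hpow : ∀ j : ℤ, ∀ y, χ (y * t ^ j) = χ y := by
        intro j
        induction j using Int.induction_on with
        | zero => intro y; simp
        | succ j ihj =>
          intro y
          rw [zpow_add_one, ← mul_assoc, hω, hω1, one_mul, ihj]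
        | pred j ihj =>
          intro y
          rw [← ihj (y), zpow_sub_one]
          have h5 := hω (y * (t ^ (-(j : ℤ)) * t⁻¹))
          rw [hω1, one_mul, mul_assoc, inv_mul_cancel_right] at h5
          exact h5.symm
      intro y m hm
      obtain ⟨j, m₀, hm₀, rfl⟩ := hgen m hm
      rw [← mul_assoc, hχ.2 _ m₀ hm₀, hpow]
    have hz : zt M' g + (p - 1) ≤ zt M g := by
      have h1 : (IrrM M').filter (fun χ => χ g = 0) ∪ (IrrM M \ IrrM M') ⊆
          (IrrM M).filter fun χ => χ g = 0 := by
        intro χ hχ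
        rw [Finset.mem_union] at hχ
        rw [Finset.mem_filter]
        rcases hχ with h | h
        · rw [Finset.mem_filter] at h
          exact ⟨irrM_mono hle h.1, h.2⟩
        · rw [Finset.mem_sdiff] at h
          exact ⟨h.1, hvan χ h.1 h.2⟩
      have h2 := Finset.card_le_card h1
      rw [Finset.card_union_of_disjoint] at h2
      · rw [Finset.card_sdiff_of_subset (irrM_mono hle), card_irrM, card_irrM] at h2
        have h3 := kap_step hle hc
        rw [hrel] at h3
        unfold kap at h3
        unfold zt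
        omega
      · rw [Finset.disjoint_left]
        intro χ h3 h4
        exact (Finset.mem_sdiff.mp h4).2 (Finset.mem_filter.mp h3).1
    -- the index
    have hrel2 : (CM M g).relIndex (CM M' g) ≤ p := by
      let φ : CM M' g →* G ⧸ M :=
        { toFun := fun y => ((y : G) : G ⧸ M) * g * ((y : G) : G ⧸ M)⁻¹ * (g : G ⧸ M)⁻¹
          map_one' := by simp
          map_mul' := by
            intro y w
            have hw : (w : G) * g * (w : G)⁻¹ * g⁻¹ ∈ M' := mem_CM.mp w.2
            have hcw := hc _ hw (y : G)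
            rw [← QuotientGroup.eq_one_iff (N := M)] at hcw
            change (((y * w : CM M' g) : G) : G ⧸ M) * g * (((y * w : CM M' g) : G) : G ⧸ M)⁻¹ *
              (g : G ⧸ M)⁻¹ = _
            set Y : G ⧸ M := ((y : G) : G ⧸ M) with hY
            set W : G ⧸ M := ((w : G) : G ⧸ M) with hW
            set γ : G ⧸ M := (g : G ⧸ M) with hγ
            have h5 : (W * γ * W⁻¹ * γ⁻¹) * Y * (W * γ * W⁻¹ * γ⁻¹)⁻¹ * Y⁻¹ = 1 := hcw
            have h6 : (W * γ * W⁻¹ * γ⁻¹) * Y = Y * (W * γ * W⁻¹ * γ⁻¹) := by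
              rw [mul_inv_eq_one, mul_inv_eq_iff_eq_mul] at h5
              exact h5
            have hcw2 := hc _ hw ((y : G) * g * (y : G)⁻¹ * g⁻¹)
            rw [← QuotientGroup.eq_one_iff (N := M)] at hcw2
            have h7 : (W * γ * W⁻¹ * γ⁻¹) * (Y * γ * Y⁻¹ * γ⁻¹) *
                (W * γ * W⁻¹ * γ⁻¹)⁻¹ * (Y * γ * Y⁻¹ * γ⁻¹)⁻¹ = 1 := hcw2
            have h8 : (W * γ * W⁻¹ * γ⁻¹) * (Y * γ * Y⁻¹ * γ⁻¹) =
                (Y * γ * Y⁻¹ * γ⁻¹) * (W * γ * W⁻¹ * γ⁻¹) := by
              rw [mul_inv_eq_one, mul_inv_eq_iff_eq_mul] at h7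
              exact h7
            change (Y * W) * γ * (Y * W)⁻¹ * γ⁻¹ = _
            have h9 : (Y * W) * γ * (Y * W)⁻¹ * γ⁻¹ =
                Y * (W * γ * W⁻¹ * γ⁻¹) * (γ * Y⁻¹ * γ⁻¹) := by group
            rw [h9, ← h6, ← h8]
            group }
      have hker : (CM M g).subgroupOf (CM M' g) = φ.ker := by
        ext y
        rw [Subgroup.mem_subgroupOf, MonoidHom.mem_ker, mem_CM,
          ← QuotientGroup.eq_one_iff (N := M)]
        rfl
      have h1 : (CM M g).relIndex (CM M' g) = Nat.card φ.range := by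
        rw [Subgroup.relIndex, hker, Subgroup.index_ker]
      rw [h1]
      have h2 : φ.range ≤ M'.map (QuotientGroup.mk' M) := by
        rintro _ ⟨y, rfl⟩
        exact ⟨(y : G) * g * (y : G)⁻¹ * g⁻¹, mem_CM.mp y.2, rfl⟩
      have h3 : Nat.card (M'.map (QuotientGroup.mk' M)) = p := by
        rw [← hrel, relIndex_eq_card_map]
      rw [← h3]
      exact Subgroup.card_le_of_le h2
    have h1 := Subgroup.relIndex_mul_index (CM_mono hle g)
    rw [← h1]
    calc (CM M g).relIndex (CM M' g) * (CM M' g).index ≤ 2 ^ (p - 1) * 2 ^ zt M' g :=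
          Nat.mul_le_mul (hrel2.trans (two_pow_ge hp.out.one_lt.le)) ih'
      _ = 2 ^ (zt M' g + (p - 1)) := by rw [← pow_add, add_comm]
      _ ≤ 2 ^ zt M g := Nat.pow_le_pow_right (by norm_num) hz

theorem cs_le {p : ℕ} [hp : Fact p.Prime] (hG : IsPGroup p G) (g : G) :
    cs g ≤ 2 ^ ((Irr G).filter fun χ => χ g = 0).card := by
  have h1 := CM_index_le hG g (⊥ : Subgroup G).index ⊥ inferInstance le_rfl
  rw [CM_bot] at h1
  have h2 : IrrM (⊥ : Subgroup G) = Irr G := by
    ext χ
    rw [mem_IrrM, mem_Irr]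
    constructor
    · exact fun h => h.1
    · intro h
      refine ⟨h, fun g m hm => ?_⟩
      rw [Subgroup.mem_bot] at hm
      rw [hm, mul_one]
  rw [zt, h2] at h1
  exact h1

end Pool.Agent.V1149.AZ
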