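import Mathlib
import Pool.Agent.V1149.AZ.Grp

/-!
# Zeros of nonlinear characters of `p`-groups
-/

open scoped BigOperators Classical
open Pool.Agent.Helper884.IC commutatorElement

noncomputable section

set_option linter.unusedSectionVars false
set_option linter.unusedVariables false
set_option linter.style.haveILetI false

namespace Pool.Agent.V1149.AZ

variable {G : Type} [Group G] [Fintype G]

/-- nilpotent descent -/
lemma descent {p : ℕ} [hp : Fact p.Prime] (hG : IsPGroup p G) (P : Subgroup G) [hP : P.Normal]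
    (bad : G → Prop) (h1 : ¬ bad 1) (h : ∃ g ∈ P, bad g) :
    ∃ g ∈ P, bad g ∧ ∀ x, ¬ bad (g * x * g⁻¹ * x⁻¹) := by
  haveI : Group.IsNilpotent G := hG.isNilpotent
  obtain ⟨n, hn⟩ := Group.IsNilpotent.nilpotent' (G := G)
  have hex : ∃ i, ∃ g ∈ P, g ∈ Subgroup.upperCentralSeries G i ∧ bad g := by
    obtain ⟨g, hg, hb⟩ := h
    exact ⟨n, g, hg, by rw [hn]; trivial, hb⟩
  obtain ⟨g, hg, hgi, hb⟩ := Nat.find_spec hex
  set i := Nat.find hex with hi
  rcases Nat.eq_zero_or_pos i with h0 | h0
  · rw [h0, Subgroup.upperCentralSeries_zero, Subgroup.mem_bot] at hgi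
    rw [hgi] at hb
    exact absurd hb h1
  · obtain ⟨j, hj⟩ : ∃ j, i = j + 1 := ⟨i - 1, by omega⟩
    refine ⟨g, hg, hb, fun x hx => ?_⟩
    rw [hj, Subgroup.mem_upperCentralSeries_succ_iff] at hgi
    have h3 := hgi x
    refine Nat.find_min hex (m := j) (by omega) ⟨_, ?_, h3, hx⟩
    have h4 : g * x * g⁻¹ * x⁻¹ = g * (x * g⁻¹ * x⁻¹) := by group
    have h5 : g * x * g⁻¹ * x⁻¹ ∈ P := by
      rw [h4]
      exact P.mul_mem hg (hP.conj_mem _ (P.inv_mem hg) x)
    exact h5

/-- a nonlinear irreducible character vanishes off a proper subgroup containing `G'` -/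
lemma exists_supp {p : ℕ} [hp : Fact p.Prime] (hG : IsPGroup p G) {χ : G → ℂ}
    (hχ : IsIrrChar χ) (hn : ¬ Inv (commutator G) χ) :
    ∃ R : Subgroup G, R ≠ ⊤ ∧ commutator G ≤ R ∧ ∀ x, x ∉ R → χ x = 0 := by
  obtain ⟨V, _, _, _, ρ, hρ, rfl⟩ := hχ
  have hone : ρ.character 1 ≠ 0 := char_one_ne ρ hρ
  have hρinv : ∀ x : G, ρ x * ρ x⁻¹ = 1 := fun x => by rw [← map_mul, mul_inv_cancel, map_one]
  have hρinv' : ∀ x : G, ρ x⁻¹ * ρ x = 1 := fun x => by rw [← map_mul, inv_mul_cancel, map_one]
  have hnz : ∀ x : G, ρ x ≠ 0 := by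
    intro x hx
    have h1 := hρinv x
    rw [hx, zero_mul] at h1
    apply hone
    unfold Representation.character
    rw [map_one, ← h1, map_zero]
  obtain ⟨g, -, hbad, hcom⟩ := descent hG ⊤ (fun g => ¬ ∃ c : ℂ, ρ g = c • LinearMap.id)
    (by
      push Not
      exact ⟨1, by rw [map_one, one_smul]; rfl⟩)
    (by
      by_contra hcon
      push Not at hcon
      apply hn
      -- all operators are scalar, so commutators act trivially
      have hscal : ∀ x, ∃ c : ℂ, ρ x = c • LinearMap.id := fun x => hcon x trivial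
      have hcomm : ∀ x y, ρ x * ρ y = ρ y * ρ x := by
        intro x y
        obtain ⟨c, hc⟩ := hscal x
        rw [hc]
        ext v
        simp
      have hker : commutator G ≤ ρ.ker := by
        rw [commutator_def, Subgroup.commutator_le]
        intro a _ b _
        rw [MonoidHom.mem_ker, commutatorElement_def, map_mul, map_mul, map_mul,
          hcomm a b, mul_assoc (ρ b), hρinv, mul_one, hρinv]
      intro x m hm
      have h2 : ρ m = 1 := hker hm
      unfold Representation.character
      rw [map_mul, h2, mul_one])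
  have hsc : ∀ x, ∃ c : ℂ, ρ (g * x * g⁻¹) = c • ρ x := by
    intro x
    have h2 := hcom x
    push Not at h2
    obtain ⟨c, hc⟩ := h2
    refine ⟨c, ?_⟩
    have h3 : g * x * g⁻¹ = g * x * g⁻¹ * x⁻¹ * x := by group
    rw [h3, map_mul, hc]
    ext v
    simp
  let R : Subgroup G :=
    { carrier := {x | ρ (g * x) = ρ (x * g)}
      one_mem' := by
        change ρ (g * 1) = ρ (1 * g)
        rw [mul_one, one_mul]
      mul_mem' := by
        intro x y hx hy
        change ρ (g * x) = ρ (x * g) at hx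
        change ρ (g * y) = ρ (y * g) at hy
        change ρ (g * (x * y)) = ρ (x * y * g)
        rw [← mul_assoc, map_mul, hx, mul_assoc x y g, map_mul ρ x (y * g), ← hy, map_mul,
          map_mul ρ g y, mul_assoc]
      inv_mem' := by
        intro x hx
        change ρ (g * x) = ρ (x * g) at hx
        change ρ (g * x⁻¹) = ρ (x⁻¹ * g)
        have h2 : ρ (x⁻¹ * g) = ρ x⁻¹ * ρ (g * x) * ρ x⁻¹ := by
          rw [← map_mul, ← map_mul]
          congr 1
          group
        rw [h2, hx, ← map_mul, ← map_mul]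
        congr 1
        group }
  have hR : ∀ x, x ∈ R ↔ ρ (g * x) = ρ (x * g) := fun x => Iff.rfl
  have hR' : ∀ x, ρ (g * x * g⁻¹) = ρ x → x ∈ R := by
    intro x hx
    rw [hR]
    have h2 : g * x = g * x * g⁻¹ * g := by group
    rw [h2, map_mul, hx, ← map_mul]
  refine ⟨R, ?_, ?_, ?_⟩
  · intro htop
    apply hbad
    apply schur ρ hρ
    intro x v
    have h2 : ρ (g * x) = ρ (x * g) := (hR x).mp (by rw [htop]; trivial)
    rw [← Module.End.mul_apply, ← Module.End.mul_apply, ← map_mul, ← map_mul, h2]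
  · rw [commutator_def, Subgroup.commutator_le]
    intro a _ b _
    apply hR'
    obtain ⟨ca, hca⟩ := hsc a
    obtain ⟨cb, hcb⟩ := hsc b
    have hca0 : ca ≠ 0 := by
      rintro rfl
      rw [zero_smul] at hca
      exact hnz _ hca
    have hcb0 : cb ≠ 0 := by
      rintro rfl
      rw [zero_smul] at hcb
      exact hnz _ hcb
    set w := ⁅a, b⁆ with hw
    have h2 : ρ (g * w * g⁻¹) * (ρ (g * b * g⁻¹) * ρ (g * a * g⁻¹)) =
        ρ (g * a * g⁻¹) * ρ (g * b * g⁻¹) := by
      rw [← map_mul, ← map_mul, ← map_mul]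
      congr 1
      rw [hw, commutatorElement_def]
      group
    have h3 : ρ w * (ρ b * ρ a) = ρ a * ρ b := by
      rw [← map_mul, ← map_mul, ← map_mul]
      congr 1
      rw [hw, commutatorElement_def]
      group
    rw [hca, hcb] at h2
    have h4 : (ca * cb) • (ρ (g * w * g⁻¹) * (ρ b * ρ a)) = (ca * cb) • (ρ w * (ρ b * ρ a)) := by
      rw [h3]
      have e1 : ρ (g * w * g⁻¹) * (cb • ρ b * ca • ρ a) =
          (ca * cb) • (ρ (g * w * g⁻¹) * (ρ b * ρ a)) := by
        rw [smul_mul_smul_comm, mul_smul_comm, mul_comm cb ca]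
      have e2 : ca • ρ a * cb • ρ b = (ca * cb) • (ρ a * ρ b) := by
        rw [smul_mul_smul_comm]
      rw [← e1, ← e2]
      exact h2
    have h5 := smul_right_injective (Module.End ℂ V) (mul_ne_zero hca0 hcb0) h4
    have h6 := congrArg (fun T => T * (ρ a⁻¹ * ρ b⁻¹)) h5
    have h7 : ρ b * ρ a * (ρ a⁻¹ * ρ b⁻¹) = 1 := by
      rw [mul_assoc, ← mul_assoc (ρ a), hρinv, one_mul, hρinv]
    simp only [mul_assoc (ρ _) (ρ b * ρ a) _, h7, mul_one] at h6
    exact h6
  · intro x hx
    by_contra hx0
    obtain ⟨c, hc⟩ := hsc x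
    apply hx
    apply hR'
    have h2 : ρ.character (g * x * g⁻¹) = ρ.character x := ρ.char_conj x g
    have h3 : ρ.character (g * x * g⁻¹) = c * ρ.character x := by
      unfold Representation.character
      rw [hc, map_smul, smul_eq_mul]
    have h4 : (c - 1) * ρ.character x = 0 := by
      rw [sub_mul, one_mul, ← h3, h2, sub_self]
    rcases mul_eq_zero.mp h4 with h5 | h5
    · rw [sub_eq_zero.mp h5, one_smul] at hc
      exact hc
    · exact absurd h5 hx0

/-- the value of a class function on a class vanishes -/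
def van (χ : G → ℂ) (K : ConjClasses G) : Prop := ∃ g, ConjClasses.mk g = K ∧ χ g = 0

lemma van_mk {χ : G → ℂ} (h : IsClass χ) (g : G) : van χ (ConjClasses.mk g) ↔ χ g = 0 := by
  constructor
  · rintro ⟨x, hx, h0⟩
    rw [ConjClasses.mk_eq_mk_iff_isConj, isConj_iff] at hx
    obtain ⟨c, rfl⟩ := hx
    rw [h x c]
    exact h0
  · exact fun h => ⟨g, rfl, h⟩

/-- the order of the abelianization -/
def ab (G : Type) [Group G] : ℕ := Nat.card (G ⧸ commutator G)

/-- conjugate elements agree in the abelianization -/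
lemma conj_ab {x y : G} (h : IsConj x y) : (x : G ⧸ commutator G) = (y : G ⧸ commutator G) := by
  obtain ⟨c, rfl⟩ := isConj_iff.mp h
  rw [QuotientGroup.eq]
  have h1 : x⁻¹ * (c * x * c⁻¹) = ⁅x⁻¹, c⁆ := by
    rw [commutatorElement_def]
    group
  rw [h1, commutator_def]
  exact Subgroup.commutator_mem_commutator trivial trivial

/-- the map from classes to the abelianization -/
def toAb (K : ConjClasses G) : G ⧸ commutator G :=
  Quotient.lift (fun g : G => (g : G ⧸ commutator G)) (fun _ _ h => conj_ab h) K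

lemma toAb_mk (g : G) : toAb (ConjClasses.mk g) = (g : G ⧸ commutator G) := rfl

/-- **a nonlinear irreducible character vanishes on at least `|G : G'| / 2` classes** -/
theorem row_bound {p : ℕ} [hp : Fact p.Prime] (hG : IsPGroup p G) {χ : G → ℂ}
    (hχ : IsIrrChar χ) (hn : ¬ Inv (commutator G) χ) :
    ab G ≤ 2 * (Finset.univ.filter fun K : ConjClasses G => van χ K).card := by
  obtain ⟨R, hRt, hRc, hR⟩ := exists_supp hG hχ hn
  set A := G ⧸ commutator G with hA
  set Rb : Subgroup A := R.map (QuotientGroup.mk' (commutator G)) with hRb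
  have hmem : ∀ g : G, (g : A) ∈ Rb ↔ g ∈ R := by
    intro g
    constructor
    · rintro ⟨r, hr, hrg⟩
      have h1 : ((r : G) : A) = (g : A) := hrg
      rw [QuotientGroup.eq] at h1
      have h2 := R.mul_mem hr (hRc h1)
      rwa [mul_inv_cancel_left] at h2
    · intro h
      exact ⟨g, h, rfl⟩
  have hRbt : Rb ≠ ⊤ := by
    intro h
    apply hRt
    rw [eq_top_iff]
    intro g _
    rw [← hmem, h]
    trivial
  have hidx : 2 ≤ Rb.index := by
    have h1 : Rb.index ≠ 0 := Subgroup.index_ne_zero_of_finite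
    have h2 : Rb.index ≠ 1 := fun h => hRbt (Subgroup.index_eq_one.mp h)
    omega
  have hcard : 2 * Nat.card Rb ≤ Nat.card A := by
    rw [← Subgroup.index_mul_card Rb]
    exact Nat.mul_le_mul_right _ hidx
  let F : {a : A // a ∉ Rb} → {K : ConjClasses G // van χ K} := fun a =>
    ⟨ConjClasses.mk (Quotient.out a.1), Quotient.out a.1, rfl, hR _ (by
      intro h
      apply a.2
      have h2 := (hmem _).mpr h
      have h3 : ((Quotient.out a.1 : G) : A) = a.1 := Quotient.out_eq a.1
      rwa [h3] at h2)⟩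
  have hF : Function.Injective F := by
    intro a b hab
    have h1 : ConjClasses.mk (Quotient.out a.1 : G) = ConjClasses.mk (Quotient.out b.1) :=
      congrArg Subtype.val hab
    have h2 := congrArg toAb h1
    rw [toAb_mk, toAb_mk] at h2
    have h3 : ((Quotient.out a.1 : G) : A) = a.1 := Quotient.out_eq a.1
    have h4 : ((Quotient.out b.1 : G) : A) = b.1 := Quotient.out_eq b.1
    exact Subtype.ext (h3.symm.trans (h2.trans h4))
  have h1 := Nat.card_le_card_of_injective F hF
  have h2 : Nat.card {K : ConjClasses G // van χ K} =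
      (Finset.univ.filter fun K : ConjClasses G => van χ K).card := by
    rw [Nat.card_eq_fintype_card, Fintype.card_subtype]
  have h3 : Nat.card {a : A // a ∉ Rb} + Nat.card Rb = Nat.card A := by
    have h4 : Nat.card {a : A // a ∉ Rb} = Fintype.card {a : A // a ∉ Rb} :=
      Nat.card_eq_fintype_card
    have h5 : Nat.card Rb = Fintype.card {a : A // a ∈ Rb} := Nat.card_eq_fintype_card
    rw [h4, h5, Fintype.card_subtype_compl, Nat.card_eq_fintype_card]
    have h6 : Fintype.card {a : A // a ∈ Rb} ≤ Fintype.card A := Fintype.card_subtype_le _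
    omega
  have h4 : ab G = Nat.card A := rfl
  omega

end Pool.Agent.V1149.AZ
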