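import Mathlib
import Pool.Agent.V1149.AZ.Row

/-!
# Counting zeros; the case of a large abelianization
-/

open scoped BigOperators Classical
open Pool.Agent.Helper884.IC commutatorElement

noncomputable section

set_option linter.unusedSectionVars false
set_option linter.unusedVariables false
set_option linter.style.haveILetI false

namespace Pool.Agent.V1149.AZ

variable {G : Type} [Group G] [Fintype G]

/-- the number of zero entries of the character table -/
def zp (G : Type) [Group G] [Fintype G] : ℕ :=
  ((Irr G ×ˢ (Finset.univ : Finset (ConjClasses G))).filter fun q => van q.1 q.2).card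

/-- the number of classes -/
def ncl (G : Type) [Group G] : ℕ := Nat.card (ConjClasses G)

lemma ncl_eq : ncl G = Fintype.card (ConjClasses G) := Nat.card_eq_fintype_card

lemma ncl_pos : 0 < ncl G := Nat.card_pos

/-- the nonlinear characters -/
def NL (G : Type) [Group G] [Fintype G] : Finset (G → ℂ) :=
  (Irr G).filter fun χ => ¬ Inv (commutator G) χ

lemma irrM_bot : IrrM (⊥ : Subgroup G) = Irr G := by
  ext χ
  rw [mem_IrrM, mem_Irr]
  constructor
  · exact fun h => h.1
  · intro h
    refine ⟨h, fun g m hm => ?_⟩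
    rw [Subgroup.mem_bot] at hm
    rw [hm, mul_one]

lemma card_irr : (Irr G).card = ncl G := by
  rw [← irrM_bot, card_irrM]
  exact kap_bot

lemma kap_comm : kap (commutator G) = ab G := by
  unfold kap ab
  refine (Nat.card_congr (Equiv.ofBijective ConjClasses.mk ⟨?_, ConjClasses.mk_surjective⟩)).symm
  intro x y hxy
  rw [ConjClasses.mk_eq_mk_iff_isConj, isConj_iff] at hxy
  obtain ⟨c, hc⟩ := hxy
  obtain ⟨a, rfl⟩ := QuotientGroup.mk_surjective c
  obtain ⟨g, rfl⟩ := QuotientGroup.mk_surjective x
  have h1 : ((a * g * a⁻¹ : G) : G ⧸ commutator G) = y := hc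
  rw [← h1]
  exact conj_ab (isConj_iff.mpr ⟨a, rfl⟩)

lemma card_NL : (NL G).card + ab G = ncl G := by
  have h1 := Finset.card_filter_add_card_filter_not (s := Irr G) (Inv (commutator G))
  have h2 : ((Irr G).filter (Inv (commutator G))).card = ab G := by
    have h3 := card_irrM (commutator G)
    rw [IrrM] at h3
    rw [h3, ← kap_comm, kap]
  rw [card_irr, h2] at h1
  unfold NL
  omega

lemma ab_pos : 0 < ab G := Nat.card_pos

lemma zp_rows : zp G = ∑ χ ∈ Irr G, (Finset.univ.filter fun K : ConjClasses G => van χ K).card := by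
  unfold zp
  rw [Finset.card_filter, Finset.sum_product]
  refine Finset.sum_congr rfl fun χ _ => ?_
  rw [Finset.card_filter]

lemma zp_cols : zp G = ∑ K : ConjClasses G, ((Irr G).filter fun χ => van χ K).card := by
  unfold zp
  rw [Finset.card_filter, Finset.sum_product_right]
  refine Finset.sum_congr rfl fun χ _ => ?_
  rw [Finset.card_filter]

/-- linear characters do not vanish -/
lemma linear_ne {χ : G → ℂ} (hχ : IsIrrChar χ) (hl : Inv (commutator G) χ) (g : G) : χ g ≠ 0 := by
  obtain ⟨V, _, _, _, ρ, hρ, rfl⟩ := hχ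
  have h1 := inv_rep ρ hρ (commutator G) hl
  obtain ⟨c, hc⟩ := schur ρ hρ (ρ g) (by
    intro x v
    have h2 : g * x = ⁅g, x⁆ * (x * g) := by
      rw [commutatorElement_def]
      group
    have h3 : ⁅g, x⁆ ∈ commutator G := by
      rw [commutator_def]
      exact Subgroup.commutator_mem_commutator (Subgroup.mem_top _) (Subgroup.mem_top _)
    rw [← Module.End.mul_apply, ← map_mul, h2, map_mul, h1 _ h3, map_mul]
    rfl)
  have hone : ρ.character 1 ≠ 0 := char_one_ne ρ hρ
  have hc0 : c ≠ 0 := by
    rintro rfl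
    rw [zero_smul] at hc
    apply hone
    have h4 : ρ g * ρ g⁻¹ = 1 := by rw [← map_mul, mul_inv_cancel, map_one]
    unfold Representation.character
    rw [map_one, ← h4, hc, zero_mul, map_zero]
  unfold Representation.character at hone ⊢
  rw [map_one] at hone
  rw [hc, map_smul, smul_eq_mul]
  exact mul_ne_zero hc0 hone

lemma zp_rows_NL : zp G = ∑ χ ∈ NL G, (Finset.univ.filter fun K : ConjClasses G => van χ K).card := by
  rw [zp_rows]
  symm
  apply Finset.sum_subset (Finset.filter_subset _ _)
  intro χ hχ hχ'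
  have h1 : Inv (commutator G) χ := by
    by_contra h
    exact hχ' (Finset.mem_filter.mpr ⟨hχ, h⟩)
  rw [Finset.card_eq_zero, Finset.filter_eq_empty_iff]
  rintro K - ⟨g, rfl, hg⟩
  exact linear_ne (mem_Irr.mp hχ) h1 g hg

/-- (A2) -/
lemma rowsum {p : ℕ} [hp : Fact p.Prime] (hG : IsPGroup p G) :
    (NL G).card * ab G ≤ 2 * zp G := by
  rw [zp_rows_NL, Finset.mul_sum, ← smul_eq_mul, ← Finset.sum_const]
  refine Finset.sum_le_sum fun χ hχ => ?_
  obtain ⟨h1, h2⟩ := Finset.mem_filter.mp hχ
  exact row_bound hG (mem_Irr.mp h1) h2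

/-- (A3) -/
lemma zp_upper : zp G + (NL G).card ≤ (NL G).card * ncl G := by
  rw [zp_rows_NL, Finset.card_eq_sum_ones, ← Finset.sum_add_distrib, Finset.sum_mul]
  refine Finset.sum_le_sum fun χ hχ => ?_
  obtain ⟨h1, h2⟩ := Finset.mem_filter.mp hχ
  rw [one_mul, ncl_eq]
  have h3 : (Finset.univ.filter fun K : ConjClasses G => van χ K).card < Fintype.card (ConjClasses G) := by
    refine Finset.card_lt_univ_of_notMem (x := ConjClasses.mk 1) ?_
    rw [Finset.mem_filter]
    rintro ⟨-, h4⟩
    rw [van_mk (mem_Irr.mp h1).isClass] at h4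
    exact irr_one_ne (mem_Irr.mp h1) h4
  omega

/-- the number of classes in a coset of the commutator subgroup -/
def fib (a : G ⧸ commutator G) : ℕ :=
  (Finset.univ.filter fun K : ConjClasses G => toAb K = a).card

lemma fib_pos (a : G ⧸ commutator G) : 1 ≤ fib a := by
  unfold fib
  rw [Nat.one_le_iff_ne_zero, ← Nat.pos_iff_ne_zero, Finset.card_pos]
  obtain ⟨g, rfl⟩ := QuotientGroup.mk_surjective a
  exact ⟨ConjClasses.mk g, Finset.mem_filter.mpr ⟨Finset.mem_univ _, rfl⟩⟩

lemma sum_fib : ∑ a : G ⧸ commutator G, fib a = ncl G := by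
  rw [ncl_eq, ← Finset.card_univ]
  exact (Finset.card_eq_sum_card_fiberwise (f := toAb) (fun _ _ => Finset.mem_coe.mpr (Finset.mem_univ _))).symm

lemma sum_fib_sub : ∑ a : G ⧸ commutator G, (fib a - 1) = (NL G).card := by
  have h1 : ∑ a : G ⧸ commutator G, (fib a - 1) + ∑ a : G ⧸ commutator G, 1 =
      ∑ a : G ⧸ commutator G, fib a := by
    rw [← Finset.sum_add_distrib]
    refine Finset.sum_congr rfl fun a _ => ?_
    have := fib_pos a
    omega
  rw [sum_fib, Finset.sum_const, Finset.card_univ, smul_eq_mul, mul_one] at h1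
  have h2 := card_NL (G := G)
  have h3 : ab G = Fintype.card (G ⧸ commutator G) := Nat.card_eq_fintype_card
  omega

lemma fib_one_le : fib (1 : G ⧸ commutator G) ≤ (NL G).card + 1 := by
  rw [← sum_fib_sub]
  have h1 : fib (1 : G ⧸ commutator G) - 1 ≤ ∑ a : G ⧸ commutator G, (fib a - 1) :=
    Finset.single_le_sum (f := fun a : G ⧸ commutator G => fib a - 1)
    (fun _ _ => Nat.zero_le _) (Finset.mem_univ (1 : G ⧸ commutator G))
  omega

/-- (A4), one row -/
lemma nonzero_le {χ : G → ℂ} (hχ : χ ∈ NL G) :
    ncl G ≤ (Finset.univ.filter fun K : ConjClasses G => van χ K).card + 2 * (NL G).card := by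
  obtain ⟨h1, h2⟩ := Finset.mem_filter.mp hχ
  have hirr := mem_Irr.mp h1
  have h3 := Finset.card_filter_add_card_filter_not (s := (Finset.univ : Finset (ConjClasses G)))
    (fun K => van χ K)
  rw [Finset.card_univ, ← ncl_eq] at h3
  have h4 : (Finset.univ.filter fun K : ConjClasses G => ¬ van χ K).card ≤ 2 * (NL G).card := by
    have h5 : (Finset.univ.filter fun K : ConjClasses G => ¬ van χ K) ⊆
        Finset.univ.filter fun K : ConjClasses G => 2 ≤ fib (toAb K) := by
      intro K hK
      rw [Finset.mem_filter] at hK ⊢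
      refine ⟨Finset.mem_univ _, ?_⟩
      by_contra hlt
      apply hK.2
      have hone : fib (toAb K) = 1 := by
        have := fib_pos (toAb K)
        omega
      obtain ⟨g, rfl⟩ := ConjClasses.mk_surjective K
      rw [van_mk hirr.isClass]
      unfold fib at hone
      rw [Finset.card_eq_one] at hone
      obtain ⟨K0, hK0⟩ := hone
      have huniq : ∀ c : commutator G, χ (g * c) = χ g := by
        intro c
        have h6 : ConjClasses.mk g ∈
            Finset.univ.filter fun K : ConjClasses G => toAb K = toAb (ConjClasses.mk g) :=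
          Finset.mem_filter.mpr ⟨Finset.mem_univ _, rfl⟩
        have h7 : ConjClasses.mk (g * c) ∈
            Finset.univ.filter fun K : ConjClasses G => toAb K = toAb (ConjClasses.mk g) := by
          refine Finset.mem_filter.mpr ⟨Finset.mem_univ _, ?_⟩
          rw [toAb_mk, toAb_mk, QuotientGroup.mk_mul, (QuotientGroup.eq_one_iff _).mpr c.2, mul_one]
        rw [hK0, Finset.mem_singleton] at h6 h7
        have h8 := h7.trans h6.symm
        rw [ConjClasses.mk_eq_mk_iff_isConj, isConj_comm, isConj_iff] at h8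
        obtain ⟨x, hx⟩ := h8
        rw [← hx, hirr.isClass g x]
      have h9 := (char_dich hirr (commutator G)).resolve_left h2 g
      rw [Finset.sum_congr rfl fun c _ => huniq c, Finset.sum_const, Finset.card_univ,
        nsmul_eq_mul] at h9
      rcases mul_eq_zero.mp h9 with h10 | h10
      · exact absurd h10 (by exact_mod_cast Fintype.card_ne_zero)
      · exact h10
    refine (Finset.card_le_card h5).trans ?_
    have h6 : (Finset.univ.filter fun K : ConjClasses G => 2 ≤ fib (toAb K)).card =
        ∑ a : G ⧸ commutator G, (((Finset.univ.filter fun K : ConjClasses G =>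
          2 ≤ fib (toAb K))).filter fun K => toAb K = a).card :=
      Finset.card_eq_sum_card_fiberwise (f := toAb) (fun _ _ => Finset.mem_coe.mpr (Finset.mem_univ _))
    rw [h6, ← sum_fib_sub, Finset.mul_sum]
    refine Finset.sum_le_sum fun a _ => ?_
    by_cases ha : 2 ≤ fib a
    · have h7 : (((Finset.univ.filter fun K : ConjClasses G =>
          2 ≤ fib (toAb K))).filter fun K => toAb K = a).card ≤ fib a := by
        apply Finset.card_le_card
        intro K hK
        rw [Finset.mem_filter] at hK
        exact Finset.mem_filter.mpr ⟨Finset.mem_univ _, hK.2⟩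
      omega
    · have h7 : (((Finset.univ.filter fun K : ConjClasses G =>
          2 ≤ fib (toAb K))).filter fun K => toAb K = a).card = 0 := by
        rw [Finset.card_eq_zero, Finset.filter_eq_empty_iff]
        intro K hK hKa
        rw [Finset.mem_filter, hKa] at hK
        exact ha hK.2
      omega
  omega

/-- (A4) -/
lemma zp_lower : (NL G).card * ncl G ≤ zp G + 2 * (NL G).card * (NL G).card := by
  calc (NL G).card * ncl G = ∑ χ ∈ NL G, ncl G := by rw [Finset.sum_const, smul_eq_mul]
    _ ≤ ∑ χ ∈ NL G, ((Finset.univ.filter fun K : ConjClasses G => van χ K).card +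
          2 * (NL G).card) := Finset.sum_le_sum fun χ hχ => nonzero_le hχ
    _ = zp G + 2 * (NL G).card * (NL G).card := by
        rw [Finset.sum_add_distrib, Finset.sum_const, smul_eq_mul, zp_rows_NL]
        ring

/-- counting elements through classes -/
lemma card_le_classes (S : Finset G) (t : ℕ) (hS : ∀ g ∈ S, cs g ≤ t) :
    S.card ≤ t * (S.image ConjClasses.mk).card := by
  refine Finset.card_le_mul_card_image S t fun K hK => ?_
  obtain ⟨g, hg, rfl⟩ := Finset.mem_image.mp hK
  refine le_trans ?_ (hS g hg)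
  rw [← card_conj, Nat.card_eq_fintype_card, Fintype.card_subtype]
  apply Finset.card_le_card
  intro x hx
  rw [Finset.mem_filter] at hx ⊢
  refine ⟨Finset.mem_univ _, ?_⟩
  rw [← ConjClasses.mk_eq_mk_iff_isConj]
  exact hx.2.symm

lemma card_elements_le (S : Finset G) (t : ℕ) (hS : ∀ g ∈ S, cs g ≤ t) :
    S.card ≤ t * ncl G := by
  refine (card_le_classes S t hS).trans (Nat.mul_le_mul_left _ ?_)
  rw [ncl_eq]
  exact Finset.card_le_univ _

/-- (A5) -/
lemma card_comm_le {p : ℕ} [hp : Fact p.Prime] (hG : IsPGroup p G) :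
    Nat.card (commutator G) ≤ 2 ^ (NL G).card * ((NL G).card + 1) := by
  have h1 : Nat.card (commutator G) = (Finset.univ.filter fun g : G => g ∈ commutator G).card := by
    rw [Nat.card_eq_fintype_card, ← Fintype.card_subtype]
  rw [h1]
  refine (card_le_classes _ (2 ^ (NL G).card) ?_).trans ?_
  · intro g _
    refine (cs_le hG g).trans (Nat.pow_le_pow_right (by norm_num) ?_)
    apply Finset.card_le_card
    intro χ hχ
    rw [Finset.mem_filter] at hχ
    refine Finset.mem_filter.mpr ⟨hχ.1, fun h => ?_⟩
    exact linear_ne (mem_Irr.mp hχ.1) h g hχ.2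
  · apply Nat.mul_le_mul_left
    refine le_trans ?_ fib_one_le
    apply Finset.card_le_card
    intro K hK
    obtain ⟨g, hg, rfl⟩ := Finset.mem_image.mp hK
    rw [Finset.mem_filter] at hg
    refine Finset.mem_filter.mpr ⟨Finset.mem_univ _, ?_⟩
    rw [toAb_mk]
    exact (QuotientGroup.eq_one_iff g).mpr hg.2

lemma card_G : Nat.card G = ab G * Nat.card (commutator G) := by
  have := Subgroup.index_mul_card (commutator G)
  rw [← this]
  rfl

/-- for a nonabelian group there is a nonlinear character -/
lemma NL_pos (hn : ¬ ∀ a b : G, a * b = b * a) : 0 < (NL G).card := by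
  by_contra h0
  have h1 : (NL G).card = 0 := by omega
  have h2 := card_NL (G := G)
  rw [h1, zero_add] at h2
  apply hn
  -- the classes are separated by the abelianization, so all classes are singletons
  have h3 : ∀ a : G ⧸ commutator G, fib a = 1 := by
    intro a
    have h4 := sum_fib_sub (G := G)
    rw [h1] at h4
    have h5 := (Finset.sum_eq_zero_iff.mp h4) a (Finset.mem_univ _)
    have h6 := fib_pos a
    omega
  -- all of `G'` is one class, the class of `1`
  have h4 : ∀ c ∈ commutator G, c = 1 := by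
    intro c hc
    have h5 := h3 1
    unfold fib at h5
    rw [Finset.card_eq_one] at h5
    obtain ⟨K0, hK0⟩ := h5
    have h6 : ConjClasses.mk (1 : G) ∈ Finset.univ.filter fun K : ConjClasses G => toAb K = 1 :=
      Finset.mem_filter.mpr ⟨Finset.mem_univ _, rfl⟩
    have h7 : ConjClasses.mk c ∈ Finset.univ.filter fun K : ConjClasses G => toAb K = 1 :=
      Finset.mem_filter.mpr ⟨Finset.mem_univ _, (QuotientGroup.eq_one_iff _).mpr hc⟩
    rw [hK0, Finset.mem_singleton] at h6 h7
    have h8 := h6.trans h7.symm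
    rw [ConjClasses.mk_eq_mk_iff_isConj, isConj_iff] at h8
    obtain ⟨x, hx⟩ := h8
    rw [← hx]
    group
  intro a b
  have h5 : ⁅a, b⁆ ∈ commutator G := by
    rw [commutator_def]
    exact Subgroup.commutator_mem_commutator (Subgroup.mem_top _) (Subgroup.mem_top _)
  have h6 := h4 _ h5
  rw [commutatorElement_eq_one_iff_mul_comm] at h6
  exact h6

/-- the bound used in case A -/
def boundA (a : ℝ) : ℝ :=
  ∑ N ∈ Finset.range (⌈4 * a⌉₊ + 1), if a < N then
    (2 * (N : ℝ) * N / (N - a)) * (2 ^ N * (N + 1)) else 0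

theorem caseA {p : ℕ} [hp : Fact p.Prime] (hG : IsPGroup p G)
    (hn : ¬ ∀ a b : G, a * b = b * a) (a : ℝ) (ha : (zp G : ℝ) = a * ncl G)
    (hm : 4 * a < ab G) : (Nat.card G : ℝ) ≤ boundA a := by
  set N := (NL G).card with hN
  have hN1 : 1 ≤ N := NL_pos hn
  have hNR : (1 : ℝ) ≤ N := by exact_mod_cast hN1
  have h1 : ((N : ℝ)) * ab G ≤ 2 * zp G := by exact_mod_cast rowsum hG
  have h2 : (N : ℝ) + ab G = ncl G := by exact_mod_cast card_NL (G := G)
  have h3 : (zp G : ℝ) + N ≤ N * ncl G := by exact_mod_cast zp_upper (G := G)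
  have h4 : (N : ℝ) * ncl G ≤ zp G + 2 * N * N := by exact_mod_cast zp_lower (G := G)
  have hkpos : (0 : ℝ) < ncl G := by exact_mod_cast ncl_pos (G := G)
  have hmpos : (0 : ℝ) < ab G := by exact_mod_cast ab_pos (G := G)
  have ha0 : 0 < a := by
    by_contra hcon
    push Not at hcon
    have : (zp G : ℝ) ≤ 0 := by
      rw [ha]
      exact mul_nonpos_of_nonpos_of_nonneg hcon hkpos.le
    nlinarith
  have hN4 : (N : ℝ) < 4 * a := by
    by_contra hcon
    push Not at hcon
    rw [ha, ← h2] at h1
    -- N m ≤ 2 a (N + m), N ≥ 4a, m > 4a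
    nlinarith
  have haN : a < N := by
    have h5 : a * ncl G + N ≤ N * ncl G := by rw [← ha]; exact h3
    by_contra hcon
    push Not at hcon
    nlinarith
  have hk : (ncl G : ℝ) ≤ 2 * N * N / (N - a) := by
    rw [le_div_iff₀ (by linarith)]
    rw [ha] at h4
    nlinarith
  have hcomm : (Nat.card (commutator G) : ℝ) ≤ 2 ^ N * (N + 1) := by
    exact_mod_cast card_comm_le hG
  have hG1 : (Nat.card G : ℝ) = ab G * Nat.card (commutator G) := by exact_mod_cast card_G (G := G)
  have hle : (Nat.card G : ℝ) ≤ (2 * N * N / (N - a)) * (2 ^ N * (N + 1)) := by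
    rw [hG1]
    apply mul_le_mul _ hcomm (by positivity) (by
      have : 0 < (N : ℝ) - a := by linarith
      positivity)
    linarith
  refine hle.trans ?_
  have hmem : N ∈ Finset.range (⌈4 * a⌉₊ + 1) := by
    rw [Finset.mem_range]
    have : (N : ℝ) < ⌈4 * a⌉₊ := hN4.trans_le (Nat.le_ceil _)
    have : N < ⌈4 * a⌉₊ := by exact_mod_cast this
    omega
  have h6 := Finset.single_le_sum (f := fun N : ℕ => if a < N then
    (2 * (N : ℝ) * N / (N - a)) * (2 ^ N * (N + 1)) else 0) (s := Finset.range (⌈4 * a⌉₊ + 1))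
    (by
      intro M _
      split_ifs with h
      · have : 0 < (M : ℝ) - a := by linarith
        positivity
      · exact le_rfl) hmem
  simp only [if_pos haN] at h6
  exact h6

end Pool.Agent.V1149.AZ
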