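import Mathlib
import Pool.Agent.V1149.AZ.CaseA

/-!
# The case of a small abelianization
-/

open scoped BigOperators Classical
open Pool.Agent.Helper884.IC commutatorElement

noncomputable section

set_option linter.unusedSectionVars false
set_option linter.unusedVariables false
set_option linter.style.haveILetI false

namespace Pool.Agent.V1149.AZ

variable {G : Type} [Group G] [Fintype G]

/-- the elements with classes of size at most `t` -/
def XX (G : Type) [Group G] [Fintype G] (t : ℕ) : Finset G := Finset.univ.filter fun g => cs g ≤ t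

lemma mem_XX {t : ℕ} {g : G} : g ∈ XX G t ↔ cs g ≤ t := by
  rw [XX, Finset.mem_filter]
  exact ⟨fun h => h.2, fun h => ⟨Finset.mem_univ _, h⟩⟩

lemma cs_conj' (x y : G) : cs (y * x * y⁻¹) = cs x :=
  (cs_conj (isConj_iff.mpr ⟨y, rfl⟩)).symm

/-- the large classes -/
def big (G : Type) [Group G] [Fintype G] (R : ℕ) : Finset (ConjClasses G) :=
  Finset.univ.filter fun K => ∃ g, ConjClasses.mk g = K ∧ 2 ^ R < cs g

lemma mem_big {R : ℕ} {g : G} : ConjClasses.mk g ∈ big G R ↔ 2 ^ R < cs g := by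
  rw [big, Finset.mem_filter]
  constructor
  · rintro ⟨-, x, hx, h⟩
    rw [ConjClasses.mk_eq_mk_iff_isConj] at hx
    rwa [← cs_conj hx]
  · exact fun h => ⟨Finset.mem_univ _, g, rfl, h⟩

/-- Markov -/
lemma markov {p : ℕ} [hp : Fact p.Prime] (hG : IsPGroup p G) (R : ℕ) :
    (big G R).card * R ≤ zp G := by
  rw [zp_cols, ← smul_eq_mul, ← Finset.sum_const]
  refine (Finset.sum_le_sum ?_).trans (Finset.sum_le_sum_of_subset (Finset.subset_univ (big G R)))
  intro K hK
  obtain ⟨g, rfl⟩ := ConjClasses.mk_surjective K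
  rw [mem_big] at hK
  have h1 := hK.trans_le (cs_le hG g)
  have h2 := (Nat.pow_lt_pow_iff_right (by norm_num : 1 < 2)).mp h1
  have h3 : ((Irr G).filter fun χ => van χ (ConjClasses.mk g)) =
      (Irr G).filter fun χ => χ g = 0 := by
    refine Finset.filter_congr fun χ hχ => ?_
    rw [van_mk (mem_Irr.mp hχ).isClass]
  rw [h3]
  exact h2.le

lemma big_real {p : ℕ} [hp : Fact p.Prime] (hG : IsPGroup p G) {a : ℝ}
    (ha : (zp G : ℝ) = a * ncl G) {R : ℕ} (hR : 0 < R) :
    ((big G R).card : ℝ) ≤ a * ncl G / R := by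
  rw [le_div_iff₀ (by exact_mod_cast hR), ← ha]
  exact_mod_cast markov hG R

/-- (B1) -/
lemma half {p : ℕ} [hp : Fact p.Prime] (hG : IsPGroup p G) {a : ℝ}
    (ha : (zp G : ℝ) = a * ncl G) {R : ℕ} (hR : 0 < R) (haR : 2 * a ≤ R) :
    (ncl G : ℝ) ≤ 2 * (XX G (2 ^ R)).card := by
  have hR0 : (0 : ℝ) < R := by exact_mod_cast hR
  have hk : (0 : ℝ) < ncl G := by exact_mod_cast ncl_pos (G := G)
  have h1 : ((big G R).card : ℝ) ≤ ncl G / 2 := by
    refine (big_real hG ha hR).trans ?_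
    rw [div_le_div_iff₀ hR0 (by norm_num)]
    nlinarith
  -- small classes inject into small elements
  have h2 : ((big G R)ᶜ).card ≤ (XX G (2 ^ R)).card := by
    refine Finset.card_le_card_of_injOn (fun K => Quotient.out K) ?_ ?_
    · intro K hK
      rw [Finset.mem_coe, Finset.mem_compl] at hK
      have h3 : ConjClasses.mk (Quotient.out K) = K := Quotient.out_eq K
      rw [← h3, mem_big, not_lt] at hK
      exact Finset.mem_coe.mpr (mem_XX.mpr hK)
    · intro K _ K' _ h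
      have h3 : ConjClasses.mk (Quotient.out K) = K := Quotient.out_eq K
      have h4 : ConjClasses.mk (Quotient.out K') = K' := Quotient.out_eq K'
      rw [← h3, ← h4]
      exact congrArg ConjClasses.mk h
  have h3 := Finset.card_add_card_compl (big G R)
  rw [← ncl_eq] at h3
  have h4 : ((big G R).card : ℝ) + (((big G R)ᶜ).card : ℝ) = ncl G := by exact_mod_cast h3
  have h5 : (((big G R)ᶜ).card : ℝ) ≤ (XX G (2 ^ R)).card := by exact_mod_cast h2
  linarith

/-- elements of `M` with small classes -/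
def MX (M : Subgroup G) (t : ℕ) : Finset G := Finset.univ.filter fun g => g ∈ M ∧ cs g ≤ t

lemma mem_MX {M : Subgroup G} {t : ℕ} {g : G} : g ∈ MX M t ↔ g ∈ M ∧ cs g ≤ t := by
  rw [MX, Finset.mem_filter]
  exact ⟨fun h => h.2, fun h => ⟨Finset.mem_univ _, h⟩⟩

lemma card_class (x : G) : (Finset.univ.filter fun y : G => IsConj x y).card = cs x := by
  rw [← card_conj, Nat.card_eq_fintype_card, Fintype.card_subtype]

/-- (C) -/
lemma lemC (M : Subgroup G) [hM : M.Normal] (s : ℕ) :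
    (XX G s).card ≤ kap M * (s * (MX M (s * s)).card) := by
  have h1 : (XX G s).card ≤ (s * (MX M (s * s)).card) *
      ((XX G s).image fun g : G => ConjClasses.mk (g : G ⧸ M)).card := by
    refine Finset.card_le_mul_card_image (f := fun g : G => ConjClasses.mk (g : G ⧸ M)) _ _
      fun K hK => ?_
    obtain ⟨x₀, hx₀, rfl⟩ := Finset.mem_image.mp hK
    rw [mem_XX] at hx₀
    have hsub : ((XX G s).filter fun g : G => ConjClasses.mk (g : G ⧸ M) =
        ConjClasses.mk (x₀ : G ⧸ M)) ⊆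
        ((Finset.univ.filter fun y : G => IsConj x₀ y) ×ˢ MX M (s * s)).image
          (fun q : G × G => q.1 * q.2) := by
      intro x hx
      rw [Finset.mem_filter, mem_XX] at hx
      obtain ⟨hxs, hxK⟩ := hx
      rw [ConjClasses.mk_eq_mk_iff_isConj, isConj_comm, isConj_iff] at hxK
      obtain ⟨c, hc⟩ := hxK
      obtain ⟨g, rfl⟩ := QuotientGroup.mk_surjective c
      have h2 : ((g * x₀ * g⁻¹ : G) : G ⧸ M) = (x : G ⧸ M) := hc
      rw [QuotientGroup.eq] at h2
      refine Finset.mem_image.mpr ⟨(g * x₀ * g⁻¹, (g * x₀ * g⁻¹)⁻¹ * x), ?_, ?_⟩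
      · rw [Finset.mem_product]
        refine ⟨Finset.mem_filter.mpr ⟨Finset.mem_univ _, isConj_iff.mpr ⟨g, rfl⟩⟩, ?_⟩
        rw [mem_MX]
        refine ⟨h2, (cs_mul _ _).trans ?_⟩
        rw [cs_inv, cs_conj']
        exact Nat.mul_le_mul hx₀ hxs
      · simp only
        rw [mul_inv_cancel_left]
    refine (Finset.card_le_card hsub).trans (Finset.card_image_le.trans ?_)
    rw [Finset.card_product, card_class]
    exact Nat.mul_le_mul_right _ hx₀
  have h2 : ((XX G s).image fun g : G => ConjClasses.mk (g : G ⧸ M)).card ≤ kap M := by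
    rw [kap, Nat.card_eq_fintype_card]
    exact Finset.card_le_univ _
  calc (XX G s).card ≤ _ := h1
    _ ≤ (s * (MX M (s * s)).card) * kap M := Nat.mul_le_mul_left _ h2
    _ = kap M * (s * (MX M (s * s)).card) := mul_comm _ _

/-- classes meeting `g M` through small elements of `M` -/
def CW (M : Subgroup G) (g : G) (t : ℕ) : Finset (ConjClasses G) :=
  (MX M t).image fun m => ConjClasses.mk (g * m)

lemma card_CW (M : Subgroup G) (g : G) (t : ℕ) :
    (MX M t).card ≤ (cs g * t) * (CW M g t).card := by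
  refine Finset.card_le_mul_card_image _ _ fun K hK => ?_
  obtain ⟨m₀, hm₀, rfl⟩ := Finset.mem_image.mp hK
  have h1 : cs (g * m₀) ≤ cs g * t :=
    (cs_mul _ _).trans (Nat.mul_le_mul_left _ (mem_MX.mp hm₀).2)
  refine le_trans ?_ h1
  rw [← card_class]
  refine Finset.card_le_card_of_injOn (fun m => g * m) ?_ ?_
  · intro m hm
    rw [Finset.mem_coe, Finset.mem_filter] at hm
    refine Finset.mem_coe.mpr (Finset.mem_filter.mpr ⟨Finset.mem_univ _, ?_⟩)
    rw [← ConjClasses.mk_eq_mk_iff_isConj]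
    exact hm.2.symm
  · intro m _ m' _ h
    exact mul_left_cancel h

/-- zero pairs of characters trivial on `M` -/
def ZM (M : Subgroup G) : ℕ :=
  ((IrrM M ×ˢ (Finset.univ : Finset (ConjClasses G))).filter fun q => van q.1 q.2).card

lemma ZM_bot : ZM (⊥ : Subgroup G) = zp G := by
  rw [ZM, irrM_bot, zp]

lemma vanish_aux {χ : G → ℂ} (hχ : IsIrrChar χ) {M M' : Subgroup G} [hM : M.Normal]
    (hinv : Inv M χ) {t : G} (ht : ∀ x, t * x * t⁻¹ * x⁻¹ ∈ M)
    (hgen : ∀ m ∈ M', ∃ j : ℤ, ∃ m₀ ∈ M, m = t ^ j * m₀) (hn : ¬ Inv M' χ) (u : G)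
    (hu : χ (u * t) = χ u) : χ u = 0 := by
  obtain ⟨ω, hω⟩ := schur_central hχ M hinv ht
  by_contra hg0
  have hω1 : ω = 1 := by
    have h2 : (ω - 1) * χ u = 0 := by rw [sub_mul, one_mul, ← hω, hu, sub_self]
    rcases mul_eq_zero.mp h2 with h | h
    · exact sub_eq_zero.mp h
    · exact absurd h hg0
  apply hn
  have hpow : ∀ j : ℤ, ∀ y, χ (y * t ^ j) = χ y := by
    intro j
    induction j using Int.induction_on with
    | zero => intro y; simp
    | succ j ihj =>
      intro y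
      rw [zpow_add_one, ← mul_assoc, hω, hω1, one_mul, ihj]
    | pred j ihj =>
      intro y
      rw [← ihj (y), zpow_sub_one]
      have h5 := hω (y * (t ^ (-(j : ℤ)) * t⁻¹))
      rw [hω1, one_mul, mul_assoc, inv_mul_cancel_right] at h5
      exact h5.symm
  intro y m hm
  obtain ⟨j, m₀, hm₀, rfl⟩ := hgen m hm
  rw [← mul_assoc, hinv _ m₀ hm₀, hpow]

/-- adding one central element `y` modulo `M` -/
lemma exists_adj {M L : Subgroup G} [hM : M.Normal] (hML : M ≤ L) {y : G} (hyL : y ∈ L)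
    (hyM : y ∉ M) (hc : ∀ w, y * w * y⁻¹ * w⁻¹ ∈ M) :
    ∃ M' : Subgroup G, M'.Normal ∧ M ≤ M' ∧ M' ≤ L ∧ y ∈ M' ∧ CentralMod M M' ∧
      ∀ m ∈ M', ∃ j : ℤ, ∃ m₀ ∈ M, m = y ^ j * m₀ := by
  set Z : Subgroup (G ⧸ M) := Subgroup.zpowers (y : G ⧸ M) with hZ
  have hyc : (y : G ⧸ M) ∈ Subgroup.center (G ⧸ M) := by
    rw [Subgroup.mem_center_iff]
    intro w
    obtain ⟨w, rfl⟩ := QuotientGroup.mk_surjective w
    have h1 := hc w
    rw [← QuotientGroup.eq_one_iff (N := M)] at h1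
    have h2 : (y : G ⧸ M) * w * (y : G ⧸ M)⁻¹ * (w : G ⧸ M)⁻¹ = 1 := h1
    rw [mul_inv_eq_one, mul_inv_eq_iff_eq_mul] at h2
    exact h2.symm
  have hZc : ∀ w ∈ Z, ∀ x : G ⧸ M, w * x = x * w := by
    intro w hw x
    have h1 : Z ≤ Subgroup.center (G ⧸ M) := by
      rw [hZ, Subgroup.zpowers_le]
      exact hyc
    exact ((Subgroup.mem_center_iff.mp (h1 hw)) x).symm
  have hgen : ∀ m ∈ Z.comap (QuotientGroup.mk' M), ∃ j : ℤ, ∃ m₀ ∈ M, m = y ^ j * m₀ := by
    intro m hm
    rw [Subgroup.mem_comap] at hm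
    obtain ⟨j, hj⟩ := Subgroup.mem_zpowers_iff.mp hm
    have h1 : ((y ^ j : G) : G ⧸ M) = (m : G ⧸ M) := hj
    rw [QuotientGroup.eq] at h1
    exact ⟨j, _, h1, by rw [mul_inv_cancel_left]⟩
  refine ⟨Z.comap (QuotientGroup.mk' M), ?_, ?_, ?_, ?_, ?_, hgen⟩
  · refine ⟨fun m hm x => ?_⟩
    rw [Subgroup.mem_comap] at hm ⊢
    have h1 : (QuotientGroup.mk' M) (x * m * x⁻¹) = (QuotientGroup.mk' M) m := by
      rw [map_mul, map_mul, map_inv, ← hZc _ hm, mul_inv_cancel_right]
    rw [h1]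
    exact hm
  · intro m hm
    rw [Subgroup.mem_comap]
    have : (QuotientGroup.mk' M) m = 1 := (QuotientGroup.eq_one_iff m).mpr hm
    rw [this]
    exact Z.one_mem
  · intro m hm
    obtain ⟨j, m₀, hm₀, rfl⟩ := hgen m hm
    exact L.mul_mem (L.zpow_mem hyL j) (hML hm₀)
  · rw [Subgroup.mem_comap]
    exact Subgroup.mem_zpowers _
  · intro m hm x
    rw [Subgroup.mem_comap] at hm
    rw [← QuotientGroup.eq_one_iff (N := M)]
    change (QuotientGroup.mk' M) m * (x : G ⧸ M) * ((QuotientGroup.mk' M) m)⁻¹ *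
      (x : G ⧸ M)⁻¹ = 1
    rw [hZc _ hm]
    group

/-- (V) -/
lemma ZM_step {M M' : Subgroup G} [hM : M.Normal] [hM' : M'.Normal] (hle : M ≤ M') {g x : G}
    {t : ℕ} (hc : CentralMod M M') (hy : g * x * g⁻¹ * x⁻¹ ∈ M')
    (hgen : ∀ m ∈ M', ∃ j : ℤ, ∃ m₀ ∈ M, m = (g * x * g⁻¹ * x⁻¹) ^ j * m₀) :
    ZM M' + (kap M - kap M') * (CW M' g t).card ≤ ZM M := by
  set y := g * x * g⁻¹ * x⁻¹ with hydef
  have hvan : ∀ χ ∈ IrrM M, χ ∉ IrrM M' → ∀ K ∈ CW M' g t, van χ K := by
    intro χ hχ hχ' K hK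
    rw [mem_IrrM] at hχ hχ'
    obtain ⟨m, hm, rfl⟩ := Finset.mem_image.mp hK
    rw [van_mk hχ.1.isClass]
    have hmM := (mem_MX.mp hm).1
    have hn : ¬ Inv M' χ := fun h => hχ' ⟨hχ.1, h⟩
    -- apply the vanishing lemma to `u = g m y⁻¹`
    have h0 : χ (g * m * y⁻¹) = 0 := by
      apply vanish_aux hχ.1 hχ.2 (fun w => hc y hy w) hgen hn
      rw [inv_mul_cancel_right]
      -- `x⁻¹ (y⁻¹ g m) x = g m (m⁻¹ x⁻¹ m x)`
      have h1 : χ (g * m * y⁻¹) = χ (y⁻¹ * (g * m)) := class_comm hχ.1.isClass _ _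
      have h2 : χ (y⁻¹ * (g * m)) = χ (x⁻¹ * (y⁻¹ * (g * m)) * x⁻¹⁻¹) :=
        (hχ.1.isClass _ _).symm
      have h3 : x⁻¹ * (y⁻¹ * (g * m)) * x⁻¹⁻¹ = g * m * (m⁻¹ * x⁻¹ * m * x) := by
        rw [hydef]
        group
      have h4 : m⁻¹ * x⁻¹ * m * x ∈ M := by
        have := hc m⁻¹ (M'.inv_mem hmM) x⁻¹
        rwa [inv_inv, inv_inv] at this
      rw [h1, h2, h3, hχ.2 _ _ h4]
    obtain ⟨ω, hω⟩ := schur_central hχ.1 M hχ.2 (y := y) (fun w => hc y hy w)
    have h5 := hω (g * m * y⁻¹)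
    rw [inv_mul_cancel_right, h0, mul_zero] at h5
    exact h5
  have hsub : ((IrrM M' ×ˢ (Finset.univ : Finset (ConjClasses G))).filter fun q => van q.1 q.2) ∪
      ((IrrM M \ IrrM M') ×ˢ CW M' g t) ⊆
      (IrrM M ×ˢ (Finset.univ : Finset (ConjClasses G))).filter fun q => van q.1 q.2 := by
    intro q hq
    rw [Finset.mem_union, Finset.mem_filter, Finset.mem_product, Finset.mem_product] at hq
    rw [Finset.mem_filter, Finset.mem_product]
    rcases hq with h | h
    · exact ⟨⟨irrM_mono hle h.1.1, Finset.mem_univ _⟩, h.2⟩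
    · rw [Finset.mem_sdiff] at h
      exact ⟨⟨h.1.1, Finset.mem_univ _⟩, hvan _ h.1.1 h.1.2 _ h.2⟩
  have h2 := Finset.card_le_card hsub
  rw [Finset.card_union_of_disjoint, Finset.card_product,
    Finset.card_sdiff_of_subset (irrM_mono hle), card_irrM, card_irrM] at h2
  · exact h2
  · rw [Finset.disjoint_left]
    intro q h3 h4
    rw [Finset.mem_filter, Finset.mem_product] at h3
    rw [Finset.mem_product, Finset.mem_sdiff] at h4
    exact h4.1.2 h3.1.1

/-! ### The subgroups `H` and `L` -/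

/-- the commutators of small elements -/
def SC (G : Type) [Group G] [Fintype G] (s : ℕ) : Finset G :=
  Finset.univ.filter fun c => ∃ h ∈ XX G s, ∃ x, c = h * x * h⁻¹ * x⁻¹

/-- the subgroup `L = [H, G]` -/
def LL (G : Type) [Group G] [Fintype G] (s : ℕ) : Subgroup G :=
  Subgroup.closure (SC G s : Set G)

/-- the subgroup `H` -/
def HH (G : Type) [Group G] [Fintype G] (s : ℕ) : Subgroup G :=
  Subgroup.closure (XX G s : Set G)

instance LL_normal (s : ℕ) : (LL G s).Normal := by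
  constructor
  intro n hn g
  unfold LL at hn ⊢
  induction hn using Subgroup.closure_induction with
  | mem c hc =>
    apply Subgroup.subset_closure
    obtain ⟨-, h, hh, x, rfl⟩ := Finset.mem_filter.mp hc
    refine Finset.mem_coe.mpr (Finset.mem_filter.mpr ⟨Finset.mem_univ _, g * h * g⁻¹, ?_,
      g * x * g⁻¹, by group⟩)
    rw [mem_XX] at hh ⊢
    rwa [cs_conj']
  | one =>
    rw [mul_one, mul_inv_cancel]
    exact Subgroup.one_mem _
  | mul a b _ _ iha ihb =>
    have h1 : g * (a * b) * g⁻¹ = (g * a * g⁻¹) * (g * b * g⁻¹) := by group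
    rw [h1]
    exact Subgroup.mul_mem _ iha ihb
  | inv a _ iha =>
    have h1 : g * a⁻¹ * g⁻¹ = (g * a * g⁻¹)⁻¹ := by group
    rw [h1]
    exact Subgroup.inv_mem _ iha

/-- the elements central modulo `L` -/
def ZL (G : Type) [Group G] [Fintype G] (s : ℕ) : Subgroup G :=
  (Subgroup.center (G ⧸ LL G s)).comap (QuotientGroup.mk' (LL G s))

instance ZL_normal (s : ℕ) : (ZL G s).Normal := Subgroup.Normal.comap inferInstance _

lemma mem_ZL {s : ℕ} {g : G} : g ∈ ZL G s ↔ ∀ x, g * x * g⁻¹ * x⁻¹ ∈ LL G s := by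
  rw [ZL, Subgroup.mem_comap, Subgroup.mem_center_iff]
  constructor
  · intro h x
    rw [← QuotientGroup.eq_one_iff (N := LL G s)]
    change (g : G ⧸ LL G s) * x * (g : G ⧸ LL G s)⁻¹ * (x : G ⧸ LL G s)⁻¹ = 1
    rw [mul_inv_eq_one, mul_inv_eq_iff_eq_mul]
    exact (h x).symm
  · intro h w
    obtain ⟨w, rfl⟩ := QuotientGroup.mk_surjective w
    have h1 := h w
    rw [← QuotientGroup.eq_one_iff (N := LL G s)] at h1
    have h2 : (g : G ⧸ LL G s) * w * (g : G ⧸ LL G s)⁻¹ * (w : G ⧸ LL G s)⁻¹ = 1 := h1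
    rw [mul_inv_eq_one, mul_inv_eq_iff_eq_mul] at h2
    exact h2.symm

lemma XX_sub_ZL (s : ℕ) : (XX G s : Set G) ⊆ ZL G s := by
  intro h hh
  rw [SetLike.mem_coe, mem_ZL]
  intro x
  apply Subgroup.subset_closure
  exact Finset.mem_coe.mpr (Finset.mem_filter.mpr ⟨Finset.mem_univ _, h, hh, x, rfl⟩)

lemma HH_le_ZL (s : ℕ) : HH G s ≤ ZL G s := (Subgroup.closure_le _).mpr (XX_sub_ZL s)

/-- (B3) -/
lemma exists_front {p : ℕ} [hp : Fact p.Prime] (hG : IsPGroup p G) {s : ℕ} (hs : 1 ≤ s)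
    {M : Subgroup G} [hM : M.Normal] (hML : M ≤ LL G s) (hne : M ≠ LL G s) :
    ∃ g x : G, cs g ≤ s ^ s ∧ g * x * g⁻¹ * x⁻¹ ∈ LL G s ∧ g * x * g⁻¹ * x⁻¹ ∉ M ∧
      ∀ w, (g * x * g⁻¹ * x⁻¹) * w * (g * x * g⁻¹ * x⁻¹)⁻¹ * w⁻¹ ∈ M := by
  have hex : ∃ h ∈ XX G s, ∃ x, h * x * h⁻¹ * x⁻¹ ∉ M := by
    by_contra hcon
    push Not at hcon
    apply hne
    apply le_antisymm hML
    unfold LL
    rw [Subgroup.closure_le]
    intro c hc
    obtain ⟨-, h, hh, x, rfl⟩ := Finset.mem_filter.mp hc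
    exact hcon h hh x
  obtain ⟨h, hh, x₀, hx₀⟩ := hex
  obtain ⟨g, hgP, ⟨x, hx⟩, hgood⟩ := descent hG (Subgroup.normalClosure {h})
    (fun g => ∃ x, g * x * g⁻¹ * x⁻¹ ∉ M)
    (by
      push Not
      intro x
      have : (1 : G) * x * 1⁻¹ * x⁻¹ = 1 := by group
      rw [this]
      exact M.one_mem)
    ⟨h, Subgroup.subset_normalClosure rfl, x₀, hx₀⟩
  refine ⟨g, x, ?_, ?_, hx, ?_⟩
  · have h1 : (Subgroup.normalClosure {h} : Subgroup G) =
        Subgroup.closure ((Finset.univ.filter fun y : G => IsConj h y : Finset G) : Set G) := by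
      unfold Subgroup.normalClosure
      congr 1
      ext y
      rw [Group.mem_conjugatesOfSet_iff]
      simp
    rw [h1] at hgP
    have h2 := cs_closure _ s hs (fun y hy => by
      rw [Finset.mem_filter] at hy
      rw [← cs_conj hy.2]
      exact mem_XX.mp hh) g hgP
    rw [card_class] at h2
    exact h2.trans (Nat.pow_le_pow_right hs (mem_XX.mp hh))
  · have h1 : (Subgroup.normalClosure {h} : Subgroup G) ≤ ZL G s := by
      apply Subgroup.normalClosure_le_normal
      rw [Set.singleton_subset_iff]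
      exact XX_sub_ZL s hh
    exact mem_ZL.mp (h1 hgP) x
  · intro w
    have h1 := hgood x
    push Not at h1
    exact h1 w

/-- (B5) -/
theorem log_bound {p : ℕ} [hp : Fact p.Prime] (hG : IsPGroup p G) {s : ℕ} (hs : 1 ≤ s)
    (hhalf : (ncl G : ℝ) ≤ 2 * (XX G s).card) :
    ∀ n : ℕ, ∀ M : Subgroup G, ∀ _ : M.Normal, M ≤ LL G s →
      Nat.card (LL G s) ≤ Nat.card M + n →
      (ncl G : ℝ) * (Real.log (kap M) - Real.log (kap (LL G s))) ≤ 2 * (s : ℝ) ^ (s + 3) * ZM M := by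
  intro n
  induction n with
  | zero =>
    intro M hM hML hcard
    have hML' : M = LL G s := by
      apply SetLike.coe_injective
      apply Set.eq_of_subset_of_ncard_le hML
      · rw [← Nat.card_coe_set_eq, ← Nat.card_coe_set_eq]
        exact hcard
    subst hML'
    rw [sub_self, mul_zero]
    positivity
  | succ n ih =>
    intro M hM hML hcard
    by_cases hne : M = LL G s
    · subst hne
      rw [sub_self, mul_zero]
      positivity
    obtain ⟨g, x, hg, hyL, hyM, hyc⟩ := exists_front hG hs hML hne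
    obtain ⟨M', hM', hle, hle', hyM', hc, hgen⟩ := exists_adj hML hyL hyM hyc
    have hcard' : Nat.card M < Nat.card M' := by
      have h1 : (M : Set G) ⊂ M' := ⟨hle, fun h => hyM (h hyM')⟩
      have h2 := Set.ncard_lt_ncard h1 (Set.toFinite _)
      rwa [← Nat.card_coe_set_eq, ← Nat.card_coe_set_eq] at h2
    have ih' := ih M' hM' hle' (by omega)
    have hstep := ZM_step (t := s * s) hle hc hyM' hgen
    have hkk := kap_mono hle
    -- the number of classes meeting `g M'`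
    have h1 := lemC M' s
    have h2 := card_CW M' g (s * s)
    set w := (CW M' g (s * s)).card with hw
    have h3 : (XX G s).card ≤ kap M' * (s * ((s ^ s * (s * s)) * w)) := by
      refine h1.trans (Nat.mul_le_mul_left _ (Nat.mul_le_mul_left _ (h2.trans ?_)))
      exact Nat.mul_le_mul_right _ (Nat.mul_le_mul_right _ hg)
    have h4 : (ncl G : ℝ) ≤ 2 * (s : ℝ) ^ (s + 3) * w * kap M' := by
      have h5 : ((XX G s).card : ℝ) ≤ kap M' * (s * ((s ^ s * (s * s)) * w)) := by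
        exact_mod_cast h3
      calc (ncl G : ℝ) ≤ 2 * (XX G s).card := hhalf
        _ ≤ 2 * (kap M' * (s * ((s ^ s * (s * s)) * w))) := by linarith
        _ = 2 * (s : ℝ) ^ (s + 3) * w * kap M' := by ring
    have hk' : (0 : ℝ) < kap M' := by exact_mod_cast kap_pos M'
    have hk : (0 : ℝ) < kap M := by exact_mod_cast kap_pos M
    have hstepR : (ZM M' : ℝ) + ((kap M : ℝ) - kap M') * w ≤ ZM M := by
      have h5 : ((ZM M' + (kap M - kap M') * w : ℕ) : ℝ) ≤ ZM M := by exact_mod_cast hstep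
      rw [Nat.cast_add, Nat.cast_mul, Nat.cast_sub hkk] at h5
      exact h5
    have hlog : Real.log (kap M) - Real.log (kap M') ≤ ((kap M : ℝ) - kap M') / kap M' := by
      rw [← Real.log_div hk.ne' hk'.ne']
      have h6 := Real.log_le_sub_one_of_pos (show (0 : ℝ) < kap M / kap M' by positivity)
      have h7 : (kap M : ℝ) / kap M' - 1 = ((kap M : ℝ) - kap M') / kap M' := by
        field_simp
      linarith
    have hdiff : (0 : ℝ) ≤ (kap M : ℝ) - kap M' := by
      have : (kap M' : ℝ) ≤ kap M := by exact_mod_cast hkk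
      linarith
    have hmain : (ncl G : ℝ) * (((kap M : ℝ) - kap M') / kap M') ≤
        2 * (s : ℝ) ^ (s + 3) * (((kap M : ℝ) - kap M') * w) := by
      rw [mul_div_assoc', div_le_iff₀ hk']
      calc (ncl G : ℝ) * ((kap M : ℝ) - kap M') ≤
            (2 * (s : ℝ) ^ (s + 3) * w * kap M') * ((kap M : ℝ) - kap M') :=
            mul_le_mul_of_nonneg_right h4 hdiff
        _ = 2 * (s : ℝ) ^ (s + 3) * (((kap M : ℝ) - kap M') * w) * kap M' := by ring
    have hn0 : (0 : ℝ) ≤ ncl G := by positivity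
    have hlog' := mul_le_mul_of_nonneg_left hlog hn0
    have hC0 : (0 : ℝ) ≤ 2 * (s : ℝ) ^ (s + 3) := by positivity
    have hstepR' := mul_le_mul_of_nonneg_left hstepR hC0
    have e1 : (ncl G : ℝ) * (Real.log (kap M) - Real.log (kap (LL G s))) =
        (ncl G : ℝ) * (Real.log (kap M) - Real.log (kap M')) +
        (ncl G : ℝ) * (Real.log (kap M') - Real.log (kap (LL G s))) := by ring
    rw [e1]
    linarith

/-- (B6) -/
theorem kap_bound {p : ℕ} [hp : Fact p.Prime] (hG : IsPGroup p G) {s : ℕ} (hs : 1 ≤ s)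
    (hhalf : (ncl G : ℝ) ≤ 2 * (XX G s).card) {a : ℝ} (ha : (zp G : ℝ) = a * ncl G) :
    (ncl G : ℝ) ≤ Real.exp (2 * (s : ℝ) ^ (s + 3) * a) * kap (LL G s) := by
  have h1 := log_bound hG hs hhalf (Nat.card (LL G s)) ⊥ inferInstance bot_le (by omega)
  rw [ZM_bot, ha] at h1
  have hk : (0 : ℝ) < ncl G := by exact_mod_cast ncl_pos (G := G)
  have hkL : (0 : ℝ) < kap (LL G s) := by exact_mod_cast kap_pos (LL G s)
  have hb : (kap (⊥ : Subgroup G) : ℝ) = ncl G := by
    rw [kap_bot]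
    rfl
  rw [hb] at h1
  have h2 : Real.log (ncl G) - Real.log (kap (LL G s)) ≤ 2 * (s : ℝ) ^ (s + 3) * a := by
    have h3 : (ncl G : ℝ) * (Real.log (ncl G) - Real.log (kap (LL G s))) ≤
        ncl G * (2 * (s : ℝ) ^ (s + 3) * a) := by
      calc _ ≤ 2 * (s : ℝ) ^ (s + 3) * (a * ncl G) := h1
        _ = _ := by ring
    exact le_of_mul_le_mul_left h3 hk
  rw [← Real.log_div hk.ne' hkL.ne'] at h2
  have h3 := (Real.log_le_iff_le_exp (by positivity)).mp h2
  rwa [div_le_iff₀ hkL] at h3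

end Pool.Agent.V1149.AZ
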