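import Mathlib
import Pool.Agent.V1149.AZ.CaseB

/-!
# The order of a `p`-group is bounded in terms of the average number of zeros
-/

open scoped BigOperators Classical
open Pool.Agent.Helper884.IC commutatorElement

noncomputable section

set_option linter.unusedSectionVars false
set_option linter.unusedVariables false
set_option linter.style.haveILetI false

namespace Pool.Agent.V1149.AZ

variable {G : Type} [Group G] [Fintype G]

/-- (D) -/
theorem mx_bound {p : ℕ} [hp : Fact p.Prime] (hG : IsPGroup p G) {a C : ℝ} (hC : 1 ≤ C)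
    (ha : (zp G : ℝ) = a * ncl G) {L : Subgroup G} [hL : L.Normal]
    (hk : (ncl G : ℝ) ≤ C * kap L) {R : ℕ} (hR : 0 < R) (haR : 2 * a * C ≤ R) (t : ℕ) :
    ((MX L t).card : ℝ) ≤ 2 * C * (2 ^ R * t) := by
  have hR0 : (0 : ℝ) < R := by exact_mod_cast hR
  have hn0 : (0 : ℝ) < ncl G := by exact_mod_cast ncl_pos (G := G)
  have hC0 : 0 < C := by linarith
  -- classes of the quotient that contain the image of a small element
  obtain ⟨hit, mem_hit⟩ : ∃ hit : Finset (ConjClasses (G ⧸ L)), ∀ K, K ∈ hit ↔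
      ∃ g ∈ XX G (2 ^ R), ConjClasses.mk (g : G ⧸ L) = K :=
    ⟨(XX G (2 ^ R)).image fun g : G => ConjClasses.mk (g : G ⧸ L), fun K => Finset.mem_image⟩
  have hmiss : (hitᶜ).card ≤ (big G R).card := by
    have hrep : ∀ K : ConjClasses (G ⧸ L), ∃ g : G, ConjClasses.mk (g : G ⧸ L) = K := by
      intro K
      obtain ⟨x, rfl⟩ := ConjClasses.mk_surjective K
      obtain ⟨g, rfl⟩ := QuotientGroup.mk_surjective x
      exact ⟨g, rfl⟩
    choose rep hrep using hrep
    refine Finset.card_le_card_of_injOn (fun K => ConjClasses.mk (rep K)) ?_ ?_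
    · intro K hK
      rw [Finset.mem_coe, Finset.mem_compl, mem_hit] at hK
      rw [Finset.mem_coe, mem_big]
      by_contra hlt
      rw [not_lt] at hlt
      exact hK ⟨rep K, mem_XX.mpr hlt, hrep K⟩
    · intro K _ K' _ h
      rw [← hrep K, ← hrep K']
      have h1 : ConjClasses.mk (rep K) = ConjClasses.mk (rep K') := h
      rw [ConjClasses.mk_eq_mk_iff_isConj, isConj_iff] at h1 ⊢
      obtain ⟨c, hc⟩ := h1
      exact ⟨(c : G ⧸ L), by rw [← hc]; rfl⟩
  have hcardk : hit.card + (hitᶜ).card = kap L := by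
    rw [Finset.card_add_card_compl, kap, Nat.card_eq_fintype_card]
  have hbig : ((big G R).card : ℝ) ≤ ncl G / (2 * C) := by
    refine (big_real hG ha hR).trans ?_
    rw [div_le_div_iff₀ hR0 (by positivity)]
    nlinarith
  have hhit : (ncl G : ℝ) ≤ 2 * C * hit.card := by
    have h1 : (hit.card : ℝ) + ((hitᶜ).card : ℝ) = kap L := by exact_mod_cast hcardk
    have h2 : ((hitᶜ).card : ℝ) ≤ (big G R).card := by exact_mod_cast hmiss
    have h3 : (ncl G : ℝ) / (2 * C) ≤ hit.card := by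
      have h4 : (ncl G : ℝ) / C ≤ kap L := by
        rw [div_le_iff₀ hC0]
        linarith
      have h5 : (ncl G : ℝ) / (2 * C) = ncl G / C / 2 := by field_simp
      rw [h5] at hbig ⊢
      linarith
    rw [div_le_iff₀ (by positivity)] at h3
    linarith
  -- representatives
  have hsel : ∀ K : ConjClasses (G ⧸ L), ∃ g : G, K ∈ hit →
      (g ∈ XX G (2 ^ R) ∧ ConjClasses.mk (g : G ⧸ L) = K) := by
    intro K
    by_cases h : K ∈ hit
    · obtain ⟨g, hg, hgK⟩ := (mem_hit K).mp h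
      exact ⟨g, fun _ => ⟨hg, hgK⟩⟩
    · exact ⟨1, fun h' => absurd h' h⟩
  choose sel hsel using hsel
  have hcount : (hit ×ˢ MX L t).card ≤ (2 ^ R * t) *
      ((hit ×ˢ MX L t).image fun q : ConjClasses (G ⧸ L) × G =>
        ConjClasses.mk (sel q.1 * q.2)).card := by
    refine Finset.card_le_mul_card_image _ _ fun K hK => ?_
    obtain ⟨q₀, hq₀, rfl⟩ := Finset.mem_image.mp hK
    rw [Finset.mem_product] at hq₀
    have h1 : cs (sel q₀.1 * q₀.2) ≤ 2 ^ R * t := by
      refine (cs_mul _ _).trans (Nat.mul_le_mul ?_ (mem_MX.mp hq₀.2).2)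
      exact mem_XX.mp (hsel _ hq₀.1).1
    refine le_trans ?_ h1
    rw [← card_class]
    have himg : ∀ q ∈ hit ×ˢ MX L t, ConjClasses.mk ((sel q.1 * q.2 : G) : G ⧸ L) = q.1 := by
      intro q hq
      rw [Finset.mem_product] at hq
      rw [QuotientGroup.mk_mul, (QuotientGroup.eq_one_iff _).mpr (mem_MX.mp hq.2).1, mul_one]
      exact (hsel _ hq.1).2
    refine Finset.card_le_card_of_injOn (fun q => sel q.1 * q.2) ?_ ?_
    · intro q hq
      rw [Finset.mem_coe, Finset.mem_filter] at hq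
      refine Finset.mem_coe.mpr (Finset.mem_filter.mpr ⟨Finset.mem_univ _, ?_⟩)
      rw [← ConjClasses.mk_eq_mk_iff_isConj]
      exact hq.2.symm
    · intro q hq q' hq' h
      rw [Finset.mem_coe, Finset.mem_filter] at hq hq'
      have h2 : sel q.1 * q.2 = sel q'.1 * q'.2 := h
      have h3 : q.1 = q'.1 := by
        rw [← himg q hq.1, ← himg q' hq'.1, h2]
      rw [h3] at h2
      exact Prod.ext h3 (mul_left_cancel h2)
  have h1 : hit.card * (MX L t).card ≤ (2 ^ R * t) * ncl G := by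
    rw [Finset.card_product] at hcount
    refine hcount.trans (Nat.mul_le_mul_left _ ?_)
    rw [ncl_eq]
    exact Finset.card_le_univ _
  have h2 : (hit.card : ℝ) * (MX L t).card ≤ (2 ^ R * t) * ncl G := by exact_mod_cast h1
  have h3 : (ncl G : ℝ) * (MX L t).card ≤ ncl G * (2 * C * (2 ^ R * t)) := by
    calc (ncl G : ℝ) * (MX L t).card ≤ (2 * C * hit.card) * (MX L t).card :=
          mul_le_mul_of_nonneg_right hhit (by positivity)
      _ = 2 * C * (hit.card * (MX L t).card) := by ring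
      _ ≤ 2 * C * ((2 ^ R * t) * ncl G) := mul_le_mul_of_nonneg_left h2 (by positivity)
      _ = _ := by ring
  exact le_of_mul_le_mul_left h3 hn0

/-- (E) -/
theorem card_LL {s : ℕ} (hs : 1 ≤ s) {c : ℝ} (hc : 0 ≤ c)
    (hmx : ∀ t : ℕ, ((MX (LL G s) t).card : ℝ) ≤ c * t) :
    (Nat.card (LL G s) : ℝ) ≤ c * (s * s) ^ ⌊c * (s * s : ℕ)⌋₊ := by
  have h1 : SC G s ⊆ MX (LL G s) (s * s) := by
    intro x hx
    obtain ⟨-, h, hh, y, rfl⟩ := Finset.mem_filter.mp hx
    rw [mem_MX]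
    refine ⟨Subgroup.subset_closure hx, ?_⟩
    have h2 : h * y * h⁻¹ * y⁻¹ = h * (y * h⁻¹ * y⁻¹) := by group
    rw [h2]
    refine (cs_mul _ _).trans ?_
    rw [cs_conj', cs_inv]
    exact Nat.mul_le_mul (mem_XX.mp hh) (mem_XX.mp hh)
  have h2 : (SC G s).card ≤ ⌊c * (s * s : ℕ)⌋₊ := by
    apply Nat.le_floor
    refine le_trans ?_ (hmx (s * s))
    exact_mod_cast Finset.card_le_card h1
  have hss : 1 ≤ s * s := Nat.mul_pos hs hs
  have h3 : ∀ g ∈ LL G s, cs g ≤ (s * s) ^ ⌊c * (s * s : ℕ)⌋₊ := by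
    intro g hg
    refine (cs_closure (SC G s) (s * s) hss (fun y hy => (mem_MX.mp (h1 hy)).2) g hg).trans ?_
    exact Nat.pow_le_pow_right hss h2
  have h4 : Nat.card (LL G s) = (MX (LL G s) ((s * s) ^ ⌊c * (s * s : ℕ)⌋₊)).card := by
    rw [Nat.card_eq_fintype_card, Fintype.card_subtype]
    congr 1
    ext g
    rw [mem_MX, Finset.mem_filter]
    constructor
    · exact fun h => ⟨h.2, h3 g h.2⟩
    · exact fun h => ⟨Finset.mem_univ _, h.1⟩
  rw [h4]
  refine (hmx _).trans (le_of_eq ?_)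
  push_cast
  ring

/-- all classes have size at most `|G : H| |L|` -/
lemma cs_le_index (s : ℕ) (x : G) : cs x ≤ (HH G s).index * Nat.card (LL G s) := by
  rw [← card_class]
  have hsub : (Finset.univ.filter fun y : G => IsConj x y) ⊆
      (Finset.univ : Finset ((G ⧸ HH G s) × LL G s)).image
        (fun q => Quotient.out q.1 * ((q.2 : G) * x) * (Quotient.out q.1)⁻¹) := by
    intro y hy
    rw [Finset.mem_filter, isConj_iff] at hy
    obtain ⟨-, g, rfl⟩ := hy
    set r : G := Quotient.out ((g : G ⧸ HH G s)) with hr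
    have h1 : r⁻¹ * g ∈ HH G s := by
      rw [← QuotientGroup.eq]
      exact Quotient.out_eq (g : G ⧸ HH G s)
    have h2 := mem_ZL.mp (HH_le_ZL s h1) x
    refine Finset.mem_image.mpr ⟨((g : G ⧸ HH G s), ⟨_, h2⟩), Finset.mem_univ _, ?_⟩
    change r * ((r⁻¹ * g * x * (r⁻¹ * g)⁻¹ * x⁻¹) * x) * r⁻¹ = _
    group
  refine (Finset.card_le_card hsub).trans (Finset.card_image_le.trans ?_)
  rw [Finset.card_univ, Fintype.card_prod, Subgroup.index, Nat.card_eq_fintype_card,
    Nat.card_eq_fintype_card]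

/-- (F) -/
theorem index_HH {p : ℕ} [hp : Fact p.Prime] (hG : IsPGroup p G) {a : ℝ} (ha0 : 0 < a)
    (ha : (zp G : ℝ) = a * ncl G) {s : ℕ} (hhalf : (ncl G : ℝ) ≤ 2 * (XX G s).card)
    {B : ℝ} (hB : (Nat.card (LL G s) : ℝ) ≤ B) {R : ℕ} (hR : 4 * a * B < R) :
    (HH G s).index < 4 * 2 ^ R := by
  by_contra hcon
  rw [not_lt] at hcon
  have hBpos : 0 < B := lt_of_lt_of_le (by exact_mod_cast Nat.card_pos) hB
  have hR0 : 0 < (R : ℝ) := lt_of_le_of_lt (by positivity) hR
  have hR1 : 0 < R := by exact_mod_cast hR0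
  set q := (HH G s).index with hq
  have hq0 : 0 < q := Nat.pos_of_ne_zero Subgroup.index_ne_zero_of_finite
  have hHX : ((XX G s).card : ℝ) ≤ Nat.card (HH G s) := by
    have h1 : (XX G s).card ≤ Nat.card (HH G s) := by
      rw [Nat.card_eq_fintype_card, Fintype.card_subtype]
      apply Finset.card_le_card
      intro g hg
      exact Finset.mem_filter.mpr ⟨Finset.mem_univ _, Subgroup.subset_closure hg⟩
    exact_mod_cast h1
  have hncl : (ncl G : ℝ) ≤ 2 * Nat.card (HH G s) := by linarith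
  have hcard : (Nat.card G : ℝ) = q * Nat.card (HH G s) := by
    exact_mod_cast (Subgroup.index_mul_card (HH G s)).symm
  have hH0 : (0 : ℝ) < Nat.card (HH G s) := by exact_mod_cast Nat.card_pos
  -- small elements
  have h1 : ((XX G (2 ^ R)).card : ℝ) ≤ 2 ^ R * ncl G := by
    exact_mod_cast card_elements_le (XX G (2 ^ R)) (2 ^ R) (fun g hg => mem_XX.mp hg)
  have hq4 : (4 : ℝ) * 2 ^ R ≤ q := by exact_mod_cast hcon
  have h2 : ((XX G (2 ^ R)).card : ℝ) ≤ Nat.card G / 2 := by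
    have h3 : (2 : ℝ) ^ R * ncl G ≤ 2 ^ R * (2 * Nat.card (HH G s)) :=
      mul_le_mul_of_nonneg_left hncl (by positivity)
    have h4 : (4 : ℝ) * 2 ^ R * Nat.card (HH G s) ≤ q * Nat.card (HH G s) :=
      mul_le_mul_of_nonneg_right hq4 hH0.le
    rw [hcard]
    linarith
  -- large elements
  have h3 : ((XX G (2 ^ R))ᶜ).card ≤ (q * Nat.card (LL G s)) * (big G R).card := by
    refine (card_le_classes _ (q * Nat.card (LL G s)) (fun g _ => cs_le_index s g)).trans ?_
    apply Nat.mul_le_mul_left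
    apply Finset.card_le_card
    intro K hK
    obtain ⟨g, hg, rfl⟩ := Finset.mem_image.mp hK
    rw [Finset.mem_compl, mem_XX, not_le] at hg
    exact mem_big.mpr hg
  have h4 : ((XX G (2 ^ R)).card : ℝ) + (((XX G (2 ^ R))ᶜ).card : ℝ) = Nat.card G := by
    have := Finset.card_add_card_compl (XX G (2 ^ R))
    rw [← Nat.card_eq_fintype_card] at this
    exact_mod_cast this
  have h5 : (((XX G (2 ^ R))ᶜ).card : ℝ) ≤ (q * Nat.card (LL G s)) * (big G R).card := by
    exact_mod_cast h3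
  have h6 : ((big G R).card : ℝ) ≤ a * (2 * Nat.card (HH G s)) / R := by
    refine (big_real hG ha hR1).trans ?_
    apply div_le_div_of_nonneg_right _ hR0.le
    exact mul_le_mul_of_nonneg_left hncl ha0.le
  have h7 : (Nat.card G : ℝ) / 2 ≤ (q * B) * (a * (2 * Nat.card (HH G s)) / R) := by
    calc (Nat.card G : ℝ) / 2 ≤ (((XX G (2 ^ R))ᶜ).card : ℝ) := by linarith
      _ ≤ (q * Nat.card (LL G s)) * (big G R).card := h5
      _ ≤ (q * B) * (a * (2 * Nat.card (HH G s)) / R) := by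
          apply mul_le_mul (mul_le_mul_of_nonneg_left hB (by positivity)) h6 (by positivity)
            (by positivity)
  have h8 : (q * B) * (a * (2 * Nat.card (HH G s)) / R) = (2 * a * B / R) * Nat.card G := by
    rw [hcard]
    ring
  rw [h8] at h7
  have hGpos : (0 : ℝ) < Nat.card G := by exact_mod_cast Nat.card_pos
  have h9 : (1 : ℝ) / 2 ≤ 2 * a * B / R := by
    have : (1 : ℝ) / 2 * Nat.card G ≤ (2 * a * B / R) * Nat.card G := by linarith
    exact le_of_mul_le_mul_right this hGpos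
  rw [div_le_div_iff₀ (by norm_num) hR0] at h9
  linarith

/-- (G) -/
theorem card_comm_set (s : ℕ) :
    Nat.card (commutatorSet G) ≤ (HH G s).index * (HH G s).index * Nat.card (LL G s) := by
  have h0 : Nat.card (commutatorSet G) =
      (Finset.univ.filter fun g : G => g ∈ commutatorSet G).card := by
    rw [Nat.card_eq_fintype_card, ← Fintype.card_subtype]
  rw [h0]
  have hsub : (Finset.univ.filter fun g : G => g ∈ commutatorSet G) ⊆
      (Finset.univ : Finset ((G ⧸ HH G s) × (G ⧸ HH G s) × LL G s)).image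
        (fun q => ⁅(Quotient.out q.1 : G), (Quotient.out q.2.1 : G)⁆ * (q.2.2 : G)) := by
    intro y hy
    rw [Finset.mem_filter] at hy
    obtain ⟨a, b, rfl⟩ := hy.2
    set r : G := Quotient.out ((a : G ⧸ HH G s)) with hr
    set t : G := Quotient.out ((b : G ⧸ HH G s)) with ht
    have h1 : r⁻¹ * a ∈ HH G s := by
      rw [← QuotientGroup.eq]
      exact Quotient.out_eq (a : G ⧸ HH G s)
    have h2 : t⁻¹ * b ∈ HH G s := by
      rw [← QuotientGroup.eq]
      exact Quotient.out_eq (b : G ⧸ HH G s)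
    have h3 : ⁅r, t⁆⁻¹ * ⁅a, b⁆ ∈ LL G s := by
      rw [← QuotientGroup.eq]
      have ha : (a : G ⧸ LL G s) = (r : G ⧸ LL G s) * ((r⁻¹ * a : G) : G ⧸ LL G s) := by
        rw [← QuotientGroup.mk_mul, mul_inv_cancel_left]
      have hb : (b : G ⧸ LL G s) = (t : G ⧸ LL G s) * ((t⁻¹ * b : G) : G ⧸ LL G s) := by
        rw [← QuotientGroup.mk_mul, mul_inv_cancel_left]
      have hu : ∀ w : G ⧸ LL G s, w * ((r⁻¹ * a : G) : G ⧸ LL G s) =
          ((r⁻¹ * a : G) : G ⧸ LL G s) * w := Subgroup.mem_center_iff.mp (HH_le_ZL s h1)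
      have hv : ∀ w : G ⧸ LL G s, w * ((t⁻¹ * b : G) : G ⧸ LL G s) =
          ((t⁻¹ * b : G) : G ⧸ LL G s) * w := Subgroup.mem_center_iff.mp (HH_le_ZL s h2)
      change (r : G ⧸ LL G s) * t * (r : G ⧸ LL G s)⁻¹ * (t : G ⧸ LL G s)⁻¹ =
        (a : G ⧸ LL G s) * b * (a : G ⧸ LL G s)⁻¹ * (b : G ⧸ LL G s)⁻¹
      rw [ha, hb]
      set u := ((r⁻¹ * a : G) : G ⧸ LL G s)
      set v := ((t⁻¹ * b : G) : G ⧸ LL G s)
      set ρ := (r : G ⧸ LL G s)
      set τ := (t : G ⧸ LL G s)
      have e1 : ρ * u * (τ * v) * (ρ * u)⁻¹ * (τ * v)⁻¹ =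
          ρ * (u * τ) * v * (u⁻¹ * ρ⁻¹) * (v⁻¹ * τ⁻¹) := by group
      rw [e1, ← hu τ]
      have e2 : ρ * (τ * u) * v * (u⁻¹ * ρ⁻¹) * (v⁻¹ * τ⁻¹) =
          ρ * τ * (u * v) * u⁻¹ * (ρ⁻¹ * v⁻¹) * τ⁻¹ := by group
      have hv' : ρ⁻¹ * v⁻¹ = v⁻¹ * ρ⁻¹ := by
        rw [← mul_inv_rev, ← mul_inv_rev, hv ρ]
      rw [e2, hv u, hv']
      group
    refine Finset.mem_image.mpr ⟨((a : G ⧸ HH G s), (b : G ⧸ HH G s), ⟨_, h3⟩),
      Finset.mem_univ _, ?_⟩
    change ⁅r, t⁆ * (⁅r, t⁆⁻¹ * ⁅a, b⁆) = ⁅a, b⁆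
    rw [mul_inv_cancel_left]
  refine (Finset.card_le_card hsub).trans (Finset.card_image_le.trans ?_)
  rw [Finset.card_univ, Fintype.card_prod, Fintype.card_prod, Subgroup.index,
    Nat.card_eq_fintype_card, Nat.card_eq_fintype_card, mul_assoc]

theorem caseB (a : ℝ) (ha0 : 0 < a) : ∃ B : ℝ, ∀ (p : ℕ) (_ : Fact p.Prime) (G : Type)
    (_ : Group G) (_ : Fintype G), IsPGroup p G → (zp G : ℝ) = a * ncl G →
    (ab G : ℝ) ≤ 4 * a → (Nat.card G : ℝ) ≤ B := by
  set R1 : ℕ := ⌈2 * a⌉₊ + 1 with hR1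
  have hR1' : 2 * a ≤ R1 := by
    rw [hR1]
    push_cast
    have := Nat.le_ceil (2 * a)
    linarith
  set s : ℕ := 2 ^ R1 with hs
  have hs1 : 1 ≤ s := Nat.one_le_two_pow
  set C : ℝ := Real.exp (2 * (s : ℝ) ^ (s + 3) * a) with hC
  have hC1 : 1 ≤ C := Real.one_le_exp (by positivity)
  set R2 : ℕ := ⌈2 * a * C⌉₊ + 1 with hR2
  have hR2' : 2 * a * C ≤ R2 := by
    rw [hR2]
    push_cast
    have := Nat.le_ceil (2 * a * C)
    linarith
  set c : ℝ := 2 * C * 2 ^ R2 with hc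
  have hc0 : 0 ≤ c := by positivity
  set B1 : ℝ := c * (s * s) ^ ⌊c * (s * s : ℕ)⌋₊ with hB1
  have hB10 : 0 ≤ B1 := by positivity
  set R3 : ℕ := ⌊4 * a * B1⌋₊ + 1 with hR3
  have hR3' : 4 * a * B1 < R3 := by
    rw [hR3]
    push_cast
    exact Nat.lt_floor_add_one _
  set B2 : ℕ := (4 * 2 ^ R3) * (4 * 2 ^ R3) * ⌊B1⌋₊ with hB2
  refine ⟨4 * a * ∑ n ∈ Finset.range (B2 + 1), (Subgroup.cardCommutatorBound n : ℝ), ?_⟩
  intro p hp G _ _ hG ha hab
  have hhalf := half hG ha (R := R1) (by omega) hR1'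
  have hkap := kap_bound hG hs1 hhalf ha
  have hmx : ∀ t : ℕ, ((MX (LL G s) t).card : ℝ) ≤ c * t := by
    intro t
    refine (mx_bound hG hC1 ha hkap (R := R2) (by omega) hR2' t).trans (le_of_eq ?_)
    rw [hc]
    ring
  have hLL := card_LL hs1 hc0 hmx
  have hidx := index_HH hG ha0 ha hhalf hLL hR3'
  have hLLn : Nat.card (LL G s) ≤ ⌊B1⌋₊ := Nat.le_floor hLL
  have hset : Nat.card (commutatorSet G) ≤ B2 := by
    refine (card_comm_set s).trans ?_
    rw [hB2]
    exact Nat.mul_le_mul (Nat.mul_le_mul hidx.le hidx.le) hLLn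
  have hcomm : (Nat.card (commutator G) : ℝ) ≤
      ∑ n ∈ Finset.range (B2 + 1), (Subgroup.cardCommutatorBound n : ℝ) := by
    have h1 : Nat.card (commutator G) ≤
        Subgroup.cardCommutatorBound (Nat.card (commutatorSet G)) :=
      Subgroup.card_commutator_le_of_finite_commutatorSet G
    have h2 : (Subgroup.cardCommutatorBound (Nat.card (commutatorSet G)) : ℝ) ≤
        ∑ n ∈ Finset.range (B2 + 1), (Subgroup.cardCommutatorBound n : ℝ) :=
      Finset.single_le_sum (f := fun n => (Subgroup.cardCommutatorBound n : ℝ))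
        (fun _ _ => by positivity) (Finset.mem_range.mpr (by omega))
    have h3 : (Nat.card (commutator G) : ℝ) ≤
        Subgroup.cardCommutatorBound (Nat.card (commutatorSet G)) := by exact_mod_cast h1
    exact h3.trans h2
  have hcard : (Nat.card G : ℝ) = ab G * Nat.card (commutator G) := by
    exact_mod_cast card_G (G := G)
  rw [hcard]
  exact mul_le_mul hab hcomm (by positivity) (by positivity)

/-- the order is bounded in terms of the average number of zeros -/
theorem order_bound (a : ℝ) : ∃ B : ℝ, ∀ (p : ℕ) (_ : Fact p.Prime) (G : Type)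
    (_ : Group G) (_ : Fintype G), IsPGroup p G → (¬ ∀ x y : G, x * y = y * x) →
    (zp G : ℝ) = a * ncl G → (Nat.card G : ℝ) ≤ B := by
  by_cases ha0 : 0 < a
  · obtain ⟨B, hB⟩ := caseB a ha0
    refine ⟨max B (boundA a), ?_⟩
    intro p hp G _ _ hG hn ha
    by_cases hab : (ab G : ℝ) ≤ 4 * a
    · exact (hB p hp G _ _ hG ha hab).trans (le_max_left _ _)
    · exact (caseA hG hn a ha (not_le.mp hab)).trans (le_max_right _ _)
  · refine ⟨0, ?_⟩
    intro p hp G _ _ hG hn ha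
    exfalso
    have hk : (0 : ℝ) < ncl G := by exact_mod_cast ncl_pos (G := G)
    have h1 : ((NL G).card : ℝ) * ab G ≤ 2 * zp G := by exact_mod_cast rowsum hG
    have h2 : (1 : ℝ) ≤ (NL G).card := by exact_mod_cast NL_pos hn
    have h3 : (1 : ℝ) ≤ ab G := by exact_mod_cast ab_pos (G := G)
    have h4 : a * ncl G ≤ 0 := mul_nonpos_of_nonpos_of_nonneg (not_lt.mp ha0) hk.le
    nlinarith

end Pool.Agent.V1149.AZ
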